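import Mathlib
import Pool.Agent.H33.Exp.VdC

set_option autoImplicit false

/-!
# Quadratic phases are dense modulo 2
-/

namespace Pool.Agent.SqrtOne

open Real Finset Pool.Agent.H33

theorem ee_int (m : ℤ) : ee (m : ℝ) = 1 := by
  unfold ee
  rw [Complex.exp_eq_one_iff]
  exact ⟨m, by push_cast; ring⟩

theorem norm_one_sub_ee_ge' {x δ : ℝ} (h : ∀ m : ℤ, δ ≤ |x - m|) : 4 * δ ≤ ‖1 - ee x‖ := by
  have h1 : ee x = ee (x - round x) := by
    rw [ee_sub, ee_int]; simp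
  have h2 : |x - round x| ≤ 1 / 2 := abs_sub_round x
  have h3 := h (round x)
  rw [h1]
  rcases le_total 0 (x - round x) with h4 | h4
  · rw [abs_of_nonneg h4] at h2 h3
    have := norm_one_sub_ee_ge h4 h2
    linarith
  · rw [abs_of_nonpos h4] at h2 h3
    have := norm_one_sub_ee_ge (neg_nonneg.2 h4) h2
    have h5 : ‖1 - ee (x - round x)‖ = ‖1 - ee (-(x - round x))‖ := by
      rw [ee_neg, ← Complex.norm_conj (1 - ee (x - round x))]
      simp
    rw [h5]; linarith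

theorem ee_natMul (x : ℝ) (j : ℕ) : ee (j * x) = ee x ^ j := by
  induction j with
  | zero => simp [ee_zero]
  | succ j ih =>
    rw [pow_succ, ← ih, ← ee_add]
    congr 1
    push_cast; ring

theorem geom_bound {x δ : ℝ} (hδ : 0 < δ) (h : ∀ m : ℤ, δ ≤ |x - m|) (M : ℕ) :
    ‖∑ j ∈ range M, ee (j * x)‖ ≤ 1 / (2 * δ) := by
  have h1 := norm_one_sub_ee_ge' h
  have h2 : (1 - ee x) * ∑ j ∈ range M, ee (j * x) = 1 - ee (M * x) := by
    have : ∑ j ∈ range M, ee (j * x) = ∑ j ∈ range M, ee x ^ j :=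
      sum_congr rfl (fun j _ => ee_natMul x j)
    rw [this, ee_natMul, mul_neg_geom_sum]
  have h3 : ‖1 - ee x‖ * ‖∑ j ∈ range M, ee (j * x)‖ ≤ 2 := by
    rw [← norm_mul, h2]
    refine (norm_sub_le _ _).trans ?_
    rw [norm_ee, norm_one]; norm_num
  rw [le_div_iff₀ (by positivity)]
  have h4 : 4 * δ * ‖∑ j ∈ range M, ee (j * x)‖ ≤ ‖1 - ee x‖ * ‖∑ j ∈ range M, ee (j * x)‖ := by
    gcongr
  linarith

/-- Weyl sum bound -/
theorem weyl_bound {β γ η : ℝ} {Q H' L h : ℕ} (hη : 0 < η)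
    (hgen : ∀ q : ℕ, 1 ≤ q → q ≤ Q → ∀ m : ℤ, η ≤ |q * γ - m|)
    (hh : 1 ≤ h) (hQ : h * H' ≤ Q) (hH' : 1 ≤ H') (hC : (H' : ℝ) ≤ η * L) (φ : ℝ) :
    (H' : ℝ) * ‖∑ a ∈ range L, ee (h * ((β * a - γ * a ^ 2 - φ) / 2))‖ ^ 2 ≤ 4 * (L : ℝ) ^ 2 := by
  have h1 := vdc_ee (fun a => (h : ℝ) * ((β * a - γ * a ^ 2 - φ) / 2)) L H' hH'
  have hη2 : η ≤ 1 / 2 := by
    have e1 := hgen h hh (le_trans (Nat.le_mul_of_pos_right h hH') hQ) (round ((h : ℝ) * γ))
    exact e1.trans (abs_sub_round _)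
  have hL0 : (0 : ℝ) ≤ L := by positivity
  have hHL : (H' : ℝ) ≤ L := by nlinarith
  have h2 : ∀ i ∈ Ico 1 H', ‖∑ n ∈ range (L - i), ee ((h : ℝ) * ((β * ((n + i : ℕ) : ℝ)
      - γ * ((n + i : ℕ) : ℝ) ^ 2 - φ) / 2) - (h : ℝ) * ((β * n - γ * n ^ 2 - φ) / 2))‖
      ≤ 1 / (2 * η) := by
    intro i hi
    rw [mem_Ico] at hi
    have e1 : ∀ n ∈ range (L - i), ee ((h : ℝ) * ((β * ((n + i : ℕ) : ℝ)
      - γ * ((n + i : ℕ) : ℝ) ^ 2 - φ) / 2) - (h : ℝ) * ((β * n - γ * n ^ 2 - φ) / 2))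
        = ee ((h : ℝ) * (β * i - γ * i ^ 2) / 2) * ee (n * (-(((h * i : ℕ) : ℝ) * γ))) := by
      intro n _
      rw [← ee_add]
      congr 1
      push_cast; ring
    rw [sum_congr rfl e1, ← mul_sum, norm_mul, norm_ee, one_mul]
    apply geom_bound hη
    intro m
    have e2 := hgen (h * i) (Nat.mul_pos hh hi.1) (le_trans (Nat.mul_le_mul_left h hi.2.le) hQ) (-m)
    rw [← abs_neg]
    convert e2 using 2
    push_cast; ring
  have h3 : ∑ i ∈ Ico 1 H', ‖∑ n ∈ range (L - i), ee ((h : ℝ) * ((β * ((n + i : ℕ) : ℝ)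
      - γ * ((n + i : ℕ) : ℝ) ^ 2 - φ) / 2) - (h : ℝ) * ((β * n - γ * n ^ 2 - φ) / 2))‖
      ≤ H' * (1 / (2 * η)) := by
    refine (sum_le_sum h2).trans ?_
    rw [sum_const, nsmul_eq_mul]
    gcongr
    rw [Nat.card_Ico]; omega
  refine h1.trans ?_
  have h4 : H' * (1 / (2 * η)) ≤ (L : ℝ) / 2 := by
    rw [mul_one_div, div_le_div_iff₀ (by positivity) (by norm_num)]
    nlinarith
  calc ((L : ℝ) + H') * ((L : ℝ) + 2 * ∑ i ∈ Ico 1 H', ‖∑ n ∈ range (L - i),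
        ee ((h : ℝ) * ((β * ((n + i : ℕ) : ℝ) - γ * ((n + i : ℕ) : ℝ) ^ 2 - φ) / 2)
          - (h : ℝ) * ((β * n - γ * n ^ 2 - φ) / 2))‖)
      ≤ ((L : ℝ) + L) * ((L : ℝ) + 2 * (L / 2)) := by
        gcongr
        exact h3.trans h4
    _ = _ := by ring

theorem sum_sq_expand (T : ℕ → ℝ) (L H : ℕ) :
    ((∑ a ∈ range L, ‖∑ j ∈ range H, ee (j * T a)‖ ^ 2 : ℝ) : ℂ)
      = ∑ j ∈ range H, ∑ i ∈ range H, ∑ a ∈ range L, ee ((j - i) * T a) := by
  push_cast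
  have : ∀ a ∈ range L, ((‖∑ j ∈ range H, ee (j * T a)‖ : ℂ)) ^ 2
      = ∑ j ∈ range H, ∑ i ∈ range H, ee ((j - i) * T a) := by
    intro a _
    rw [← Complex.mul_conj', map_sum, sum_mul_sum]
    apply sum_congr rfl
    intro j _
    apply sum_congr rfl
    intro i _
    rw [← ee_sub]
    congr 1
    ring
  rw [sum_congr rfl this, sum_comm]
  apply sum_congr rfl
  intro j _
  rw [sum_comm]

theorem dense {ε : ℝ} (hε : 0 < ε) : ∃ Q : ℕ, ∃ C : ℝ, 1 ≤ Q ∧ 0 < C ∧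
    ∀ (β γ η : ℝ) (L : ℕ), 0 < η → (∀ q : ℕ, 1 ≤ q → q ≤ Q → ∀ m : ℤ, η ≤ |q * γ - m|) →
      C ≤ η * L → ∀ φ : ℝ, ∃ a < L, ∃ j : ℤ, |β * a - γ * a ^ 2 - φ - 2 * j| ≤ ε := by
  obtain ⟨H, hH⟩ : ∃ H : ℕ, H = ⌈2 / ε ^ 2⌉₊ + 1 := ⟨_, rfl⟩
  have hH1 : 2 / ε ^ 2 < H := by
    rw [hH]; push_cast
    have := Nat.le_ceil (2 / ε ^ 2)
    linarith
  have hHpos : 1 ≤ H := by omega
  have hHr : (1 : ℝ) ≤ H := by exact_mod_cast hHpos
  obtain ⟨H', hH'⟩ : ∃ H' : ℕ, H' = 16 * H ^ 2 := ⟨_, rfl⟩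
  have hH'1 : 1 ≤ H' := by rw [hH']; nlinarith
  have hH'r : (H' : ℝ) = 16 * H ^ 2 := by rw [hH']; push_cast; ring
  refine ⟨H * H', H', Nat.mul_pos hHpos hH'1, by exact_mod_cast hH'1, ?_⟩
  intro β γ η L hη hgen hC φ
  by_contra hcon
  push Not at hcon
  have hL : (0 : ℝ) < L := by
    rcases Nat.eq_zero_or_pos L with h | h
    · exfalso
      rw [h] at hC
      simp at hC
      omega
    · exact_mod_cast h
  obtain ⟨T, hT⟩ : ∃ T : ℕ → ℝ, ∀ a, T a = (β * a - γ * a ^ 2 - φ) / 2 := ⟨_, fun _ => rfl⟩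
  have hTa : ∀ a < L, ∀ m : ℤ, ε / 2 ≤ |T a - m| := by
    intro a ha m
    have e1 := hcon a ha m
    have e2 : T a - m = (β * a - γ * a ^ 2 - φ - 2 * m) / 2 := by rw [hT]; ring
    rw [e2, abs_div, abs_two]
    linarith
  have hup : ∑ a ∈ range L, ‖∑ j ∈ range H, ee (j * T a)‖ ^ 2 ≤ L * (1 / ε ^ 2) := by
    have e1 : ∀ a ∈ range L, ‖∑ j ∈ range H, ee (j * T a)‖ ^ 2 ≤ 1 / ε ^ 2 := by
      intro a ha
      rw [mem_range] at ha
      have := geom_bound (by positivity : 0 < ε / 2) (hTa a ha) H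
      calc ‖∑ j ∈ range H, ee (j * T a)‖ ^ 2 ≤ (1 / (2 * (ε / 2))) ^ 2 := by gcongr
        _ = _ := by field_simp
    refine (sum_le_sum e1).trans ?_
    rw [sum_const, card_range, nsmul_eq_mul]
  -- off-diagonal sums
  have hS : ∀ h : ℕ, 1 ≤ h → h < H → ‖∑ a ∈ range L, ee (h * T a)‖ ≤ L / (2 * H) := by
    intro h h1 h2
    have e1 := weyl_bound (β := β) (Q := H * H') hη hgen h1 (Nat.mul_le_mul_right H' h2.le)
      hH'1 hC φ
    have e2 : ∑ a ∈ range L, ee (h * ((β * a - γ * a ^ 2 - φ) / 2)) = ∑ a ∈ range L, ee (h * T a) :=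
      sum_congr rfl (fun a _ => by rw [hT])
    rw [e2, hH'r] at e1
    apply le_of_sq_le_sq _ (by positivity)
    rw [div_pow, le_div_iff₀ (by positivity)]
    nlinarith
  have hoff : ∀ j i : ℕ, j < H → i < H → j ≠ i →
      ‖∑ a ∈ range L, ee (((j : ℝ) - i) * T a)‖ ≤ L / (2 * H) := by
    intro j i hj hi hne
    rcases lt_or_gt_of_ne hne with h | h
    · have e1 := hS (i - j) (by omega) (by omega)
      have e2 : ∀ a ∈ range L, ee (((j : ℝ) - i) * T a)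
          = (starRingEnd ℂ) (ee (((i - j : ℕ) : ℝ) * T a)) := by
        intro a _
        rw [← ee_neg]
        congr 1
        rw [Nat.cast_sub h.le]; ring
      rw [sum_congr rfl e2, ← map_sum, Complex.norm_conj]
      exact e1
    · have e1 := hS (j - i) (by omega) (by omega)
      have e2 : ∀ a ∈ range L, ee (((j : ℝ) - i) * T a) = ee (((j - i : ℕ) : ℝ) * T a) := by
        intro a _
        rw [Nat.cast_sub h.le]
      rw [sum_congr rfl e2]
      exact e1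
  have hlow : (H : ℝ) * L - H ^ 2 * (L / (2 * H))
      ≤ ∑ a ∈ range L, ‖∑ j ∈ range H, ee (j * T a)‖ ^ 2 := by
    have e1 := sum_sq_expand T L H
    have e2 : ∑ j ∈ range H, ∑ i ∈ range H, ∑ a ∈ range L, ee (((j : ℝ) - i) * T a)
        = (H : ℂ) * L + ∑ j ∈ range H, ∑ i ∈ range H,
          (if j = i then 0 else ∑ a ∈ range L, ee (((j : ℝ) - i) * T a)) := by
      have e3 : ∀ j ∈ range H, ∑ i ∈ range H, ∑ a ∈ range L, ee (((j : ℝ) - i) * T a)
          = (L : ℂ) + ∑ i ∈ range H,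
            (if j = i then 0 else ∑ a ∈ range L, ee (((j : ℝ) - i) * T a)) := by
        intro j hj
        have e4 : (L : ℂ) = ∑ i ∈ range H, (if j = i then (L : ℂ) else 0) := by
          rw [sum_ite_eq, if_pos hj]
        rw [e4, ← sum_add_distrib]
        apply sum_congr rfl
        intro i _
        split_ifs with hji
        · subst hji
          simp [ee_zero]
        · rw [zero_add]
      rw [sum_congr rfl e3, sum_add_distrib, sum_const, card_range, nsmul_eq_mul]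
    have e5 : ‖∑ j ∈ range H, ∑ i ∈ range H,
          (if j = i then 0 else ∑ a ∈ range L, ee (((j : ℝ) - i) * T a))‖
          ≤ H ^ 2 * (L / (2 * H)) := by
      refine (norm_sum_le _ _).trans ?_
      have e6 : ∀ j ∈ range H, ‖∑ i ∈ range H,
          (if j = i then 0 else ∑ a ∈ range L, ee (((j : ℝ) - i) * T a))‖ ≤ H * (L / (2 * H)) := by
        intro j hj
        rw [mem_range] at hj
        refine (norm_sum_le _ _).trans ?_
        have e7 : ∀ i ∈ range H, ‖(if j = i then 0 else ∑ a ∈ range L, ee (((j : ℝ) - i) * T a))‖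
            ≤ L / (2 * H) := by
          intro i hi
          rw [mem_range] at hi
          split_ifs with hji
          · rw [norm_zero]; positivity
          · exact hoff j i hj hi hji
        refine (sum_le_sum e7).trans ?_
        rw [sum_const, card_range, nsmul_eq_mul]
      refine (sum_le_sum e6).trans ?_
      rw [sum_const, card_range, nsmul_eq_mul]
      apply le_of_eq; ring
    have e8 : ∑ a ∈ range L, ‖∑ j ∈ range H, ee (j * T a)‖ ^ 2
        = ‖((∑ a ∈ range L, ‖∑ j ∈ range H, ee (j * T a)‖ ^ 2 : ℝ) : ℂ)‖ := by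
      rw [Complex.norm_real, Real.norm_eq_abs, abs_of_nonneg]
      exact sum_nonneg (fun m _ => by positivity)
    rw [e8, e1, e2]
    have e9 : ‖(H : ℂ) * L‖ = H * L := by
      rw [norm_mul, Complex.norm_natCast, Complex.norm_natCast]
    have e10 := norm_sub_norm_le ((H : ℂ) * L) (-(∑ j ∈ range H, ∑ i ∈ range H,
          (if j = i then 0 else ∑ a ∈ range L, ee (((j : ℝ) - i) * T a))))
    rw [sub_neg_eq_add, norm_neg, e9] at e10
    linarith
  have hH0 : (0 : ℝ) < H := by linarith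
  have h6 : (H : ℝ) * L - H ^ 2 * (L / (2 * H)) = H * L / 2 := by field_simp; ring
  rw [h6] at hlow
  have h7 : (H : ℝ) * L / 2 ≤ L * (1 / ε ^ 2) := hlow.trans hup
  have h8 : L * (H / 2 : ℝ) ≤ L * (1 / ε ^ 2) := by
    calc L * (H / 2 : ℝ) = (H : ℝ) * L / 2 := by ring
      _ ≤ _ := h7
  have h9 := le_of_mul_le_mul_left h8 hL
  have h10 : 2 / ε ^ 2 = 2 * (1 / ε ^ 2) := by ring
  linarith

end Pool.Agent.SqrtOne
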