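import Mathlib
import Pool.Agent.SqrtParity.SignChanges

set_option autoImplicit false

/-!
# Blocks: a completely multiplicative function that is constant on `(n², n² + (1 + 2 g) n]`
-/

namespace Pool.Agent.SqrtOne

open Real Pool.Agent.SqrtParity

/-- `f` is completely multiplicative, `±1`-valued and constant on `(n², n² + (1 + 2 g) n]` -/
structure Hyp (f : ℕ → ℤ) (n g : ℝ) (e : ℤ) : Prop where
  cm : CM f
  hn : 1 ≤ n
  hg0 : 0 < g
  hg1 : g ≤ 1 / 4
  hI : ∀ m : ℕ, n ^ 2 < m → (m : ℝ) ≤ n ^ 2 + (1 + 2 * g) * n → f m = e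

/-- `y + n² / y` -/
noncomputable def psi (n y : ℝ) : ℝ := y + n ^ 2 / y

theorem psi_eq {n y : ℝ} (hy : 0 < y) : psi n y = 2 * n + (y - n) ^ 2 / y := by
  unfold psi; field_simp; ring

theorem psi_mono {n y y' : ℝ} (hn : 0 < n) (hy : n ≤ y) (h : y ≤ y') : psi n y ≤ psi n y' := by
  unfold psi
  have hy0 : 0 < y := by linarith
  have hy'0 : 0 < y' := by linarith
  have : y' + n ^ 2 / y' - (y + n ^ 2 / y) = (y' - y) * (1 - n ^ 2 / (y * y')) := by
    field_simp; ring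
  have h2 : n ^ 2 / (y * y') ≤ 1 := by
    rw [div_le_one (by positivity)]
    nlinarith
  nlinarith [mul_nonneg (sub_nonneg.2 h) (sub_nonneg.2 h2)]

/-- `y` is in the good part of block `m` -/
def B (n g : ℝ) (m : ℤ) (y : ℕ) : Prop :=
  n < y ∧ (y : ℝ) + 1 ≤ 2 * n ∧ (m : ℝ) - g ≤ psi n y ∧ psi n y < m

theorem B.step {f : ℕ → ℤ} {n g : ℝ} {e : ℤ} (h : Hyp f n g e) {m : ℤ} {y : ℕ}
    (hB : B n g m y) : f y = f (y + 1) := by
  obtain ⟨h1, h2, h3, h4⟩ := hB
  have hn := h.hn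
  have hg0 := h.hg0
  have hg1 := h.hg1
  have hy0 : (0 : ℝ) < y := by linarith
  have hy1 : 1 ≤ y := by exact_mod_cast hy0
  unfold psi at h3 h4
  have hq : 0 < n ^ 2 / y := by positivity
  have hqn : n ^ 2 / y < n := by
    rw [div_lt_iff₀ hy0]; nlinarith
  have hmy : (y : ℤ) < m := by
    have : (y : ℝ) < m := by linarith
    exact_mod_cast this
  obtain ⟨R, hR⟩ : ∃ R : ℕ, (R : ℤ) = m - y := ⟨(m - y).toNat, Int.toNat_of_nonneg (by omega)⟩
  have hRr : (R : ℝ) = m - y := by exact_mod_cast congrArg (Int.cast : ℤ → ℝ) hR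
  have hR1 : 1 ≤ R := by
    have : (0 : ℤ) < R := by omega
    exact_mod_cast this
  obtain ⟨δ, hδ⟩ : ∃ δ : ℝ, δ = (R : ℝ) - n ^ 2 / y := ⟨_, rfl⟩
  have hδ0 : 0 < δ := by rw [hδ, hRr]; linarith
  have hδg : δ ≤ g := by rw [hδ, hRr]; linarith
  have e1 : (y : ℝ) * R = n ^ 2 + δ * y := by
    have : (R : ℝ) = n ^ 2 / y + δ := by rw [hδ]; ring
    rw [this]; field_simp
  have e2 : ((y : ℝ) + 1) * R = n ^ 2 + δ * (y + 1) + n ^ 2 / y := by
    have : (R : ℝ) = n ^ 2 / y + δ := by rw [hδ]; ring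
    calc ((y : ℝ) + 1) * R = y * R + R := by ring
      _ = _ := by rw [e1, this]; ring
  have k1 : f (y * R) = e := by
    apply h.hI
    · push_cast; rw [e1]; nlinarith
    · push_cast; rw [e1]; nlinarith
  have k2 : f ((y + 1) * R) = e := by
    apply h.hI
    · push_cast; rw [e2]; nlinarith
    · push_cast; rw [e2]
      have : δ * ((y : ℝ) + 1) ≤ g * (2 * n) := by gcongr
      nlinarith
  rw [h.cm.mul _ _ hy1 hR1] at k1
  rw [h.cm.mul _ _ (by omega) hR1] at k2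
  have h5 := h.cm.sq hR1
  calc f y = f y * (f R * f R) := by rw [h5, mul_one]
    _ = (f y * f R) * f R := by ring
    _ = (f (y + 1) * f R) * f R := by rw [k1, k2]
    _ = f (y + 1) * (f R * f R) := by ring
    _ = _ := by rw [h5, mul_one]

theorem B.eq {f : ℕ → ℤ} {n g : ℝ} {e : ℤ} (h : Hyp f n g e) {m : ℤ} {y y' : ℕ}
    (hB : B n g m y) (hB' : B n g m y') : f y = f y' := by
  have hn : 0 < n := by linarith [h.hn]
  have main : ∀ (d y : ℕ), B n g m y → B n g m (y + d) → f y = f (y + d) := by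
    intro d
    induction d with
    | zero => intro y _ _; rfl
    | succ d ih =>
      intro y hy hyd
      have h2 : B n g m (y + d) := by
        obtain ⟨a1, a2, a3, a4⟩ := hy
        obtain ⟨b1, b2, b3, b4⟩ := hyd
        have e1 : ((y + d : ℕ) : ℝ) ≤ ((y + (d + 1) : ℕ) : ℝ) := by exact_mod_cast (by omega)
        have e2 : (y : ℝ) ≤ ((y + d : ℕ) : ℝ) := by exact_mod_cast (by omega)
        refine ⟨by linarith, by linarith, ?_, ?_⟩
        · exact a3.trans (psi_mono hn a1.le e2)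
        · exact lt_of_le_of_lt (psi_mono hn (by linarith) e1) b4
      rw [ih y hy h2, h2.step h]; rfl
  rcases le_total y y' with h1 | h1
  · obtain ⟨d, rfl⟩ := Nat.exists_eq_add_of_le h1
    exact main d y hB hB'
  · obtain ⟨d, rfl⟩ := Nat.exists_eq_add_of_le h1
    exact (main d y' hB' hB).symm

open Classical in
/-- the value of `f` on the block `m` -/
noncomputable def K (f : ℕ → ℤ) (n g : ℝ) (m : ℤ) : ℤ :=
  if h : ∃ y, B n g m y then f h.choose else 1

theorem B.val {f : ℕ → ℤ} {n g : ℝ} {e : ℤ} (h : Hyp f n g e) {m : ℤ} {y : ℕ}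
    (hB : B n g m y) : f y = K f n g m := by
  classical
  have hex : ∃ y, B n g m y := ⟨y, hB⟩
  rw [K, dif_pos hex]
  exact hB.eq h hex.choose_spec

theorem K_one_or {f : ℕ → ℤ} {n g : ℝ} {e : ℤ} (h : Hyp f n g e) (m : ℤ) :
    K f n g m = 1 ∨ K f n g m = -1 := by
  classical
  rw [K]
  split_ifs with hex
  · apply h.cm.one_or
    have h1 := hex.choose_spec.1
    have h2 : (0 : ℝ) < (hex.choose : ℕ) := by linarith [h.hn]
    exact_mod_cast h2
  · exact Or.inl rfl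

theorem K_sq {f : ℕ → ℤ} {n g : ℝ} {e : ℤ} (h : Hyp f n g e) (m : ℤ) :
    K f n g m * K f n g m = 1 := by
  rcases K_one_or h m with h1 | h1 <;> rw [h1] <;> norm_num

/-! ### the reference block -/

/-- index of the reference block -/
noncomputable def mref (n : ℝ) : ℤ := ⌊2 * n⌋ + 2

/-- offset of the reference block -/
noncomputable def mu (n : ℝ) : ℝ := (mref n : ℝ) - 2 * n

theorem mu_bounds (n : ℝ) : 1 < mu n ∧ mu n ≤ 2 := by
  unfold mu mref
  push_cast
  have h1 := Int.floor_le (2 * n)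
  have h2 := Int.lt_floor_add_one (2 * n)
  constructor <;> linarith

/-- `y` lies in the middle of the reference block -/
def Mid (n g : ℝ) (y : ℝ) : Prop :=
  n < y ∧ (mu n - 9 * g / 16) * n ≤ (y - n) ^ 2 ∧ (y - n) ^ 2 ≤ (mu n - 7 * g / 16) * n

theorem Mid.bounds {n g : ℝ} (hn : 1 ≤ n) (hg0 : 0 < g) (hg1 : g ≤ 1 / 4) {y : ℝ}
    (h : Mid n g y) : 0 < y - n ∧ √n / 2 ≤ y - n ∧ y - n ≤ 3 / 2 * √n := by
  obtain ⟨h1, h2, h3⟩ := h
  obtain ⟨hm1, hm2⟩ := mu_bounds n
  have hs := Real.sq_sqrt (by linarith : 0 ≤ n)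
  have hs0 : 0 < √n := Real.sqrt_pos.2 (by linarith)
  refine ⟨by linarith, ?_, ?_⟩
  · apply le_of_sq_le_sq _ (by linarith)
    nlinarith
  · apply le_of_sq_le_sq _ (by positivity)
    nlinarith

theorem Mid.psi {n g : ℝ} (hn : 1 ≤ n) (hg0 : 0 < g) (hg1 : g ≤ 1 / 4) (hng : 64 / g ≤ √n) {y : ℝ}
    (h : Mid n g y) : (mref n : ℝ) - 5 * g / 8 ≤ psi n y ∧ psi n y ≤ mref n - 7 * g / 16 := by
  obtain ⟨b0, b1, b2⟩ := h.bounds hn hg0 hg1
  obtain ⟨h1, h2, h3⟩ := h
  obtain ⟨hm1, hm2⟩ := mu_bounds n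
  have hs := Real.sq_sqrt (by linarith : 0 ≤ n)
  have hs0 : 0 < √n := Real.sqrt_pos.2 (by linarith)
  have hy0 : 0 < y := by linarith
  have hn0 : 0 < n := by linarith
  rw [psi_eq hy0]
  have e1 : (y - n) ^ 2 / y ≤ mu n - 7 * g / 16 := by
    rw [div_le_iff₀ hy0]
    refine h3.trans ?_
    have : 0 ≤ mu n - 7 * g / 16 := by linarith
    nlinarith
  have e2 : mu n - 5 * g / 8 ≤ (y - n) ^ 2 / y := by
    rw [le_div_iff₀ hy0]
    refine le_trans ?_ h2
    rw [div_le_iff₀ hg0] at hng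
    have h4 : (mu n - 5 * g / 8) * (y - n) ≤ g / 16 * n := by
      calc (mu n - 5 * g / 8) * (y - n) ≤ 2 * (3 / 2 * √n) := by
            apply mul_le_mul (by linarith) b2 b0.le (by norm_num)
        _ = 3 * √n := by ring
        _ ≤ (√n * g / 16) * √n := by nlinarith
        _ = g / 16 * n := by nlinarith
    nlinarith
  unfold mu at e1 e2
  constructor <;> linarith

end Pool.Agent.SqrtOne
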