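import Mathlib
import Pool.Agent.SqrtOne.Block

set_option autoImplicit false

/-!
# Adjacency of multipliers
-/

namespace Pool.Agent.SqrtOne

open Real Pool.Agent.SqrtParity

/-- the phase difference of the multipliers `k` and `k + l` -/
noncomputable def D (n : ℝ) (k l : ℕ) : ℝ := n * l * (1 / (k : ℝ) + 1 / ((k : ℝ) + l))

theorem psi_shift (n : ℝ) {k l z : ℕ} (hk : 1 ≤ k) (hz : 1 ≤ z) :
    psi n (((k + l) * z : ℕ) : ℝ) = psi n ((k * z : ℕ) : ℝ) + 2 * l * z - D n k l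
      - ((psi n ((k * z : ℕ) : ℝ) - 2 * n) * l / (k + l)
        + (l : ℝ) ^ 2 * (((k * z : ℕ) : ℝ) - n) / (k * (k + l))) := by
  have hk0 : (0 : ℝ) < k := by exact_mod_cast hk
  have hz0 : (0 : ℝ) < z := by exact_mod_cast hz
  have hkl : (0 : ℝ) < (k : ℝ) + l := by positivity
  unfold psi D
  push_cast
  field_simp
  ring

theorem adj_core {n g : ℝ} (hn : 1 ≤ n) (hg0 : 0 < g) (hg1 : g ≤ 1 / 4) (hng : 64 / g ≤ √n)
    {k l z : ℕ} (hk : 1 ≤ k) (hz : Mid n g ((k * z : ℕ) : ℝ)) {N : ℤ}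
    (hN : |D n k l - N| ≤ g / 4)
    (herr : 2 * (l : ℝ) / k + 3 / 2 * (l : ℝ) ^ 2 * √n / (k : ℝ) ^ 2 ≤ g / 16) :
    B n g (mref n + 2 * l * z - N) ((k + l) * z) := by
  obtain ⟨b0, b1, b2⟩ := hz.bounds hn hg0 hg1
  obtain ⟨p1, p2⟩ := hz.psi hn hg0 hg1 hng
  have hk0 : (0 : ℝ) < k := by exact_mod_cast hk
  have hn0 : 0 < n := by linarith
  have hl0 : (0 : ℝ) ≤ l := by positivity
  have hz1 : 1 ≤ z := by
    rcases Nat.eq_zero_or_pos z with h | h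
    · exfalso
      rw [h] at b0
      simp at b0
      linarith
    · exact h
  have hz0 : (0 : ℝ) < z := by exact_mod_cast hz1
  have hs := Real.sq_sqrt (by linarith : 0 ≤ n)
  have hs256 : 256 ≤ √n := by
    refine le_trans ?_ hng
    rw [le_div_iff₀ hg0]; linarith
  obtain ⟨ζ, hζ⟩ : ∃ ζ, ζ = psi n ((k * z : ℕ) : ℝ) - 2 * n := ⟨_, rfl⟩
  obtain ⟨hm1, hm2⟩ := mu_bounds n
  have hζ0 : 0 ≤ ζ := by
    rw [hζ]; unfold mu at hm1; linarith
  have hζ2 : ζ ≤ 2 := by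
    rw [hζ]; unfold mu at hm2; linarith
  obtain ⟨θ, hθ⟩ : ∃ θ, θ = ((k * z : ℕ) : ℝ) - n := ⟨_, rfl⟩
  rw [← hθ] at b0 b1 b2
  obtain ⟨err, herrdef⟩ : ∃ err, err = ζ * l / (k + l) + (l : ℝ) ^ 2 * θ / (k * (k + l)) :=
    ⟨_, rfl⟩
  have herr0 : 0 ≤ err := by rw [herrdef]; positivity
  have herr1 : err ≤ g / 16 := by
    refine le_trans ?_ herr
    rw [herrdef]
    have e1 : ζ * l / (k + l) ≤ 2 * (l : ℝ) / k := by
      apply div_le_div₀ (by positivity) (by gcongr) hk0 (by linarith)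
    have e2 : (l : ℝ) ^ 2 * θ / (k * (k + l)) ≤ 3 / 2 * (l : ℝ) ^ 2 * √n / (k : ℝ) ^ 2 := by
      apply div_le_div₀ (by positivity) _ (by positivity) (by nlinarith)
      calc (l : ℝ) ^ 2 * θ ≤ (l : ℝ) ^ 2 * (3 / 2 * √n) := by gcongr
        _ = _ := by ring
    linarith
  have hsh := psi_shift n (l := l) hk hz1
  rw [← hζ, ← hθ, ← herrdef] at hsh
  have hlk : 2 * (l : ℝ) / k ≤ g / 16 := by
    have : 0 ≤ 3 / 2 * (l : ℝ) ^ 2 * √n / (k : ℝ) ^ 2 := by positivity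
    linarith
  rw [abs_le] at hN
  refine ⟨?_, ?_, ?_, ?_⟩
  · have : ((k * z : ℕ) : ℝ) ≤ (((k + l) * z : ℕ) : ℝ) := by
      exact_mod_cast Nat.mul_le_mul_right z (Nat.le_add_right k l)
    linarith
  · have e1 : (((k + l) * z : ℕ) : ℝ) = ((k * z : ℕ) : ℝ) * (1 + l / k) := by
      push_cast; field_simp
    have e2 : (l : ℝ) / k ≤ 1 / 128 := by
      have : 2 * (l : ℝ) / k = 2 * (l / k) := by ring
      linarith
    have e3 : ((k * z : ℕ) : ℝ) ≤ n + 3 / 2 * √n := by linarith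
    rw [e1]
    have e4 : √n ≤ n / 256 := by nlinarith
    calc ((k * z : ℕ) : ℝ) * (1 + l / k) + 1 ≤ (n + 3 / 2 * √n) * (1 + 1 / 128) + 1 := by gcongr
      _ ≤ 2 * n := by nlinarith
  · rw [hsh]
    have hcast : ((mref n + 2 * l * z - N : ℤ) : ℝ) = mref n + 2 * l * z - N := by push_cast; ring
    rw [hcast]; linarith
  · rw [hsh]
    have hcast : ((mref n + 2 * l * z - N : ℤ) : ℝ) = mref n + 2 * l * z - N := by push_cast; ring
    rw [hcast]; linarith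

theorem mid_B {n g : ℝ} (hn : 1 ≤ n) (hg0 : 0 < g) (hg1 : g ≤ 1 / 4) (hng : 64 / g ≤ √n)
    {y : ℕ} (hy : Mid n g (y : ℝ)) : B n g (mref n) y := by
  obtain ⟨b0, b1, b2⟩ := hy.bounds hn hg0 hg1
  obtain ⟨p1, p2⟩ := hy.psi hn hg0 hg1 hng
  have hs := Real.sq_sqrt (by linarith : 0 ≤ n)
  have hs256 : 256 ≤ √n := by
    refine le_trans ?_ hng
    rw [le_div_iff₀ hg0]; linarith
  refine ⟨by linarith, ?_, by linarith, by linarith⟩
  have e4 : √n ≤ n / 256 := by nlinarith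
  nlinarith

/-- adjacency lemma -/
theorem adj {f : ℕ → ℤ} {n g : ℝ} {e : ℤ} (h : Hyp f n g e) (hng : 64 / g ≤ √n)
    {k l z : ℕ} (hk : 1 ≤ k) (hz : Mid n g ((k * z : ℕ) : ℝ)) {N : ℤ}
    (hN : |D n k l - N| ≤ g / 4)
    (herr : 2 * (l : ℝ) / k + 3 / 2 * (l : ℝ) ^ 2 * √n / (k : ℝ) ^ 2 ≤ g / 16) :
    f k * f (k + l) = K f n g (mref n) * K f n g (mref n + 2 * l * z - N) := by
  have h1 := adj_core h.hn h.hg0 h.hg1 hng hk hz hN herr
  have h2 := mid_B h.hn h.hg0 h.hg1 hng hz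
  have hz1 : 1 ≤ z := by
    rcases Nat.eq_zero_or_pos z with h' | h'
    · exfalso
      have := hz.1
      rw [h'] at this
      simp at this
      linarith [h.hn]
    · exact h'
  rw [← h1.val h, ← h2.val h, h.cm.mul _ _ hk hz1, h.cm.mul _ _ (by omega) hz1]
  have h5 := h.cm.sq hz1
  calc f k * f (k + l) = f k * f (k + l) * (f z * f z) := by rw [h5, mul_one]
    _ = _ := by ring

theorem exists_mid {n g : ℝ} (hn : 1 ≤ n) (hg0 : 0 < g) (hg1 : g ≤ 1 / 4)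
    {k : ℕ} (hk : 1 ≤ k) (hkn : (k : ℝ) ≤ g * √n / 48) :
    ∃ z : ℕ, Mid n g ((k * z : ℕ) : ℝ) ∧ Mid n g ((k * (z + 1) : ℕ) : ℝ) := by
  obtain ⟨hm1, hm2⟩ := mu_bounds n
  have hn0 : 0 < n := by linarith
  have hs := Real.sq_sqrt hn0.le
  have hs0 : 0 < √n := Real.sqrt_pos.2 hn0
  have hk0 : (0 : ℝ) < k := by exact_mod_cast hk
  obtain ⟨a, ha⟩ : ∃ a, a = √((mu n - 9 * g / 16) * n) := ⟨_, rfl⟩
  obtain ⟨b, hb⟩ : ∃ b, b = √((mu n - 7 * g / 16) * n) := ⟨_, rfl⟩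
  have ha2 : a ^ 2 = (mu n - 9 * g / 16) * n := by
    rw [ha]; exact Real.sq_sqrt (mul_nonneg (by linarith) hn0.le)
  have hb2 : b ^ 2 = (mu n - 7 * g / 16) * n := by
    rw [hb]; exact Real.sq_sqrt (mul_nonneg (by linarith) hn0.le)
  have ha0 : 0 < a := by rw [ha]; exact Real.sqrt_pos.2 (mul_pos (by linarith) hn0)
  have hb0 : 0 < b := by rw [hb]; exact Real.sqrt_pos.2 (mul_pos (by linarith) hn0)
  have hab : a + b ≤ 3 * √n := by
    have h1 : a ≤ 3 / 2 * √n := by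
      apply le_of_sq_le_sq _ (by positivity); nlinarith
    have h2 : b ≤ 3 / 2 * √n := by
      apply le_of_sq_le_sq _ (by positivity); nlinarith
    linarith
  have hdiff : g * √n / 24 ≤ b - a := by
    have e1 : (b - a) * (a + b) = g / 8 * n := by nlinarith
    have e2 : 0 ≤ b - a := by
      by_contra hcon
      push Not at hcon
      nlinarith [mul_pos hg0 hn0]
    have e3 : g / 8 * n ≤ (b - a) * (3 * √n) := by
      rw [← e1]; gcongr
    have e4 : (g * √n / 24) * (3 * √n) ≤ (b - a) * (3 * √n) := by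
      calc (g * √n / 24) * (3 * √n) = g / 8 * (√n) ^ 2 := by ring
        _ = g / 8 * n := by rw [hs]
        _ ≤ _ := e3
    exact le_of_mul_le_mul_right e4 (by positivity)
  obtain ⟨z, hz⟩ : ∃ z : ℕ, z = ⌈(n + a) / k⌉₊ := ⟨_, rfl⟩
  have hz1 : (n + a) / k ≤ z := by rw [hz]; exact Nat.le_ceil _
  have hz2 : (z : ℝ) < (n + a) / k + 1 := by rw [hz]; exact Nat.ceil_lt_add_one (by positivity)
  rw [div_le_iff₀ hk0] at hz1
  have hz3 : (k : ℝ) * z < n + a + k := by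
    calc (k : ℝ) * z < k * ((n + a) / k + 1) := by gcongr
      _ = _ := by field_simp
  have key : ∀ y : ℝ, n + a ≤ y → y ≤ n + b → Mid n g y := by
    intro y h1 h2
    refine ⟨by linarith, ?_, ?_⟩
    · rw [← ha2]; apply pow_le_pow_left₀ ha0.le; linarith
    · rw [← hb2]; apply pow_le_pow_left₀ (by linarith); linarith
  refine ⟨z, key _ ?_ ?_, key _ ?_ ?_⟩ <;> push_cast <;> nlinarith

end Pool.Agent.SqrtOne
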