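import Mathlib

set_option autoImplicit false

/-!
# Counting the non-generic multipliers
-/

namespace Pool.Agent.SqrtOne

open Finset

theorem card_le_of_diam {T : Finset ℕ} {Δ : ℝ} 
    (h : ∀ s ∈ T, ∀ s' ∈ T, s < s' → (s' : ℝ) - s ≤ Δ) : T.card ≤ ⌊Δ⌋₊ + 1 := by
  rcases T.eq_empty_or_nonempty with he | hne
  · rw [he]; simp
  · have hsub : T ⊆ Icc (T.min' hne) (T.min' hne + ⌊Δ⌋₊) := by
      intro s hs
      rw [mem_Icc]
      refine ⟨T.min'_le s hs, ?_⟩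
      rcases eq_or_lt_of_le (T.min'_le s hs) with h1 | h1
      · omega
      · have h2 := h _ (T.min'_mem hne) s hs h1
        have h3 : s - T.min' hne ≤ ⌊Δ⌋₊ := by
          apply Nat.le_floor
          rw [Nat.cast_sub h1.le]; exact h2
        omega
    refine (card_le_card hsub).trans ?_
    rw [Nat.card_Icc]; omega

theorem count_one {n K1 K2 η : ℝ} (hn : 0 < n) (hK1 : 0 < K1) (hK2 : 0 < K2) (hη : 0 < η)
    (hη1 : η ≤ 1)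
    {S : Finset ℕ} (hS : ∀ s ∈ S, K1 ≤ (s : ℝ) ∧ (s : ℝ) ≤ K2) {q : ℕ} (hq : 1 ≤ q)
    (hbad : ∀ s ∈ S, ∃ m : ℤ, |q * (n / (s : ℝ) ^ 2) - m| < η) :
    (S.card : ℝ) ≤ (η * K2 ^ 3 / n + 1) * (q * n / K1 ^ 2 + 2) := by
  classical
  have hq1 : (1 : ℝ) ≤ q := by exact_mod_cast hq
  have hq0 : (0 : ℝ) < q := by linarith
  have hbad' : ∀ s : ℕ, ∃ m : ℤ, s ∈ S → |q * (n / (s : ℝ) ^ 2) - m| < η := by
    intro s
    by_cases hs : s ∈ S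
    · obtain ⟨m, hm⟩ := hbad s hs
      exact ⟨m, fun _ => hm⟩
    · exact ⟨0, fun h => absurd h hs⟩
  choose m hm using hbad'
  have hmaps : ∀ s ∈ S, m s ∈ Icc (0 : ℤ) (⌊q * n / K1 ^ 2⌋₊ + 1 : ℕ) := by
    intro s hs
    have h1 := hm s hs
    rw [abs_lt] at h1
    obtain ⟨h2, h3⟩ := hS s hs
    have hs0 : (0 : ℝ) < s := by linarith
    rw [mem_Icc]
    constructor
    · have e1 : (-1 : ℝ) < m s := by
        have : 0 < q * (n / (s : ℝ) ^ 2) := by positivity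
        linarith
      have : (-1 : ℤ) < m s := by exact_mod_cast e1
      omega
    · have e1 : q * (n / (s : ℝ) ^ 2) ≤ q * n / K1 ^ 2 := by
        rw [mul_div_assoc]
        gcongr
      have e2 : (m s : ℝ) - 1 < ⌊q * n / K1 ^ 2⌋₊ + 1 := by
        have := Nat.lt_floor_add_one (q * n / K1 ^ 2)
        linarith
      have e3 : (m s : ℝ) < ((⌊q * n / K1 ^ 2⌋₊ + 2 : ℕ) : ℝ) := by push_cast; linarith
      have e4 : m s < ((⌊q * n / K1 ^ 2⌋₊ + 2 : ℕ) : ℤ) := by exact_mod_cast e3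
      push_cast at e4 ⊢
      omega
  have hfib : ∀ b ∈ Icc (0 : ℤ) (⌊q * n / K1 ^ 2⌋₊ + 1 : ℕ),
      (S.filter (fun s => m s = b)).card ≤ ⌊η * K2 ^ 3 / n⌋₊ + 1 := by
    intro b _
    apply card_le_of_diam
    intro s hs s' hs' hlt
    rw [mem_filter] at hs hs'
    have h1 := hm s hs.1
    have h2 := hm s' hs'.1
    rw [hs.2, abs_lt] at h1
    rw [hs'.2, abs_lt] at h2
    obtain ⟨a1, a2⟩ := hS s hs.1
    obtain ⟨b1, b2⟩ := hS s' hs'.1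
    have hs0 : (0 : ℝ) < s := by linarith
    have hs'0 : (0 : ℝ) < s' := by linarith
    have hltr : (s : ℝ) < s' := by exact_mod_cast hlt
    have e1 : q * (n / (s : ℝ) ^ 2) - q * (n / (s' : ℝ) ^ 2) ≤ 2 * η := by linarith
    have e2 : q * (n / (s : ℝ) ^ 2) - q * (n / (s' : ℝ) ^ 2)
        = q * n * ((s' : ℝ) - s) * (1 / (s * (s' : ℝ) ^ 2) + 1 / ((s : ℝ) ^ 2 * s')) := by
      field_simp; ring
    have e3 : 1 / K2 ^ 3 ≤ 1 / (s * (s' : ℝ) ^ 2) := by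
      apply one_div_le_one_div_of_le (by positivity)
      calc (s : ℝ) * (s' : ℝ) ^ 2 ≤ K2 * K2 ^ 2 := by gcongr
        _ = _ := by ring
    have e4 : 1 / K2 ^ 3 ≤ 1 / ((s : ℝ) ^ 2 * s') := by
      apply one_div_le_one_div_of_le (by positivity)
      calc (s : ℝ) ^ 2 * (s' : ℝ) ≤ K2 ^ 2 * K2 := by gcongr
        _ = _ := by ring
    have hd : 0 < (s' : ℝ) - s := by linarith
    have e5 : 1 * n * ((s' : ℝ) - s) * (1 / K2 ^ 3 + 1 / K2 ^ 3) ≤ 2 * η := by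
      refine le_trans ?_ e1
      rw [e2]
      gcongr
    have e6 : n * ((s' : ℝ) - s) ≤ η * K2 ^ 3 := by
      have : 1 * n * ((s' : ℝ) - s) * (1 / K2 ^ 3 + 1 / K2 ^ 3)
          = 2 * (n * ((s' : ℝ) - s)) / K2 ^ 3 := by ring
      rw [this, div_le_iff₀ (by positivity)] at e5
      linarith
    rw [le_div_iff₀ hn]; linarith
  have h1 := card_le_mul_card_image_of_maps_to hmaps _ hfib
  have h2 : (Icc (0 : ℤ) (⌊q * n / K1 ^ 2⌋₊ + 1 : ℕ)).card = ⌊q * n / K1 ^ 2⌋₊ + 2 := by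
    rw [Int.card_Icc]; omega
  rw [h2] at h1
  have h3 : (S.card : ℝ) ≤ (((⌊η * K2 ^ 3 / n⌋₊ + 1) * (⌊q * n / K1 ^ 2⌋₊ + 2) : ℕ) : ℝ) := by
    exact_mod_cast h1
  refine h3.trans ?_
  push_cast
  have h4 := Nat.floor_le (by positivity : 0 ≤ η * K2 ^ 3 / n)
  have h5 := Nat.floor_le (by positivity : 0 ≤ q * n / K1 ^ 2)
  gcongr

theorem count_all {n K1 K2 η : ℝ} (hn : 0 < n) (hK1 : 0 < K1) (hK2 : 0 < K2) (hη : 0 < η)
    (hη1 : η ≤ 1)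
    {S : Finset ℕ} (hS : ∀ s ∈ S, K1 ≤ (s : ℝ) ∧ (s : ℝ) ≤ K2) {Q : ℕ}
    (hbad : ∀ s ∈ S, ∃ q : ℕ, 1 ≤ q ∧ q ≤ Q ∧ ∃ m : ℤ, |q * (n / (s : ℝ) ^ 2) - m| < η) :
    (S.card : ℝ) ≤ Q * ((η * K2 ^ 3 / n + 1) * (Q * n / K1 ^ 2 + 2)) := by
  classical
  have hsub : S ⊆ (Icc 1 Q).biUnion
      (fun q => S.filter (fun s : ℕ => ∃ m : ℤ, |(q : ℝ) * (n / (s : ℝ) ^ 2) - m| < η)) := by
    intro s hs
    obtain ⟨q, h1, h2, h3⟩ := hbad s hs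
    rw [mem_biUnion]
    exact ⟨q, mem_Icc.2 ⟨h1, h2⟩, mem_filter.2 ⟨hs, h3⟩⟩
  have h1 : S.card ≤ ∑ q ∈ Icc 1 Q, (S.filter (fun s : ℕ => ∃ m : ℤ,
      |(q : ℝ) * (n / (s : ℝ) ^ 2) - m| < η)).card := (card_le_card hsub).trans card_biUnion_le
  have h2 : (S.card : ℝ) ≤ ∑ q ∈ Icc 1 Q, ((S.filter (fun s : ℕ => ∃ m : ℤ,
      |(q : ℝ) * (n / (s : ℝ) ^ 2) - m| < η)).card : ℝ) := by exact_mod_cast h1
  refine h2.trans ?_
  have h3 : ∀ q ∈ Icc 1 Q, ((S.filter (fun s : ℕ => ∃ m : ℤ,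
      |(q : ℝ) * (n / (s : ℝ) ^ 2) - m| < η)).card : ℝ)
      ≤ (η * K2 ^ 3 / n + 1) * (Q * n / K1 ^ 2 + 2) := by
    intro q hq
    rw [mem_Icc] at hq
    refine (count_one hn hK1 hK2 hη hη1 (fun s hs => hS s (mem_filter.1 hs).1) hq.1
      (fun s hs => (mem_filter.1 hs).2)).trans ?_
    have : (q : ℝ) ≤ Q := by exact_mod_cast hq.2
    gcongr
  refine (sum_le_sum h3).trans ?_
  rw [sum_const, nsmul_eq_mul, Nat.card_Icc]
  simp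

end Pool.Agent.SqrtOne
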