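import Mathlib
import Pool.Agent.SqrtParity.Approx

set_option autoImplicit false

/-!
# Slowly accelerating sequences come close to every target modulo 2
-/

namespace Pool.Agent.SqrtOne

open Real

theorem sweep {u : ℕ → ℝ} {A R : ℕ} {η ε : ℝ} (hη : 0 < η) (hη1 : η ≤ 1)
    (h1 : ∀ k, A ≤ k → k ≤ A + R → η ≤ u (k + 2) - 2 * u (k + 1) + u k)
    (h2 : ∀ k, A ≤ k → k ≤ A + R → u (k + 2) - 2 * u (k + 1) + u k ≤ 2 * η)
    (hR : 2 / η + 2 / √η + 4 ≤ R) (hsmall : 8 * √η ≤ ε) (τ : ℝ) :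
    ∃ k, A ≤ k ∧ k ≤ A + R ∧ ∃ j : ℤ, |u k - τ - 2 * j| ≤ ε := by
  classical
  have hs0 : 0 < √η := Real.sqrt_pos.2 hη
  have hsq : √η * √η = η := Real.mul_self_sqrt hη.le
  have hs1 : √η ≤ 1 := by rw [← Real.sqrt_one]; exact Real.sqrt_le_sqrt hη1
  obtain ⟨d, hd⟩ : ∃ d : ℕ → ℝ, ∀ k, d k = u (k + 1) - u k := ⟨_, fun k => rfl⟩
  have hd1 : ∀ k, A ≤ k → k ≤ A + R → d k + η ≤ d (k + 1) := by
    intro k hk hk2
    have := h1 k hk hk2
    rw [hd, hd]; linarith
  have hd2 : ∀ k, A ≤ k → k ≤ A + R → d (k + 1) ≤ d k + 2 * η := by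
    intro k hk hk2
    have := h2 k hk hk2
    rw [hd, hd]; linarith
  obtain ⟨h, hh⟩ : ∃ h : ℤ, h = ⌈d A / 2⌉ := ⟨_, rfl⟩
  have hh1 : d A ≤ 2 * h := by
    have := Int.le_ceil (d A / 2)
    rw [← hh] at this; linarith
  have hh2 : 2 * (h : ℝ) < d A + 2 := by
    have := Int.ceil_lt_add_one (d A / 2)
    rw [← hh] at this; linarith
  obtain ⟨I, hI⟩ : ∃ I : ℕ, I = ⌈2 / η⌉₊ := ⟨_, rfl⟩
  have hI1 : 2 / η ≤ I := by rw [hI]; exact Nat.le_ceil _
  have hI2 : (I : ℝ) < 2 / η + 1 := by rw [hI]; exact Nat.ceil_lt_add_one (by positivity)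
  have hgrow : ∀ i : ℕ, i ≤ R → d A + i * η ≤ d (A + i) := by
    intro i
    induction i with
    | zero => intro _; simp
    | succ i ih =>
      intro hi
      have e1 := ih (by omega)
      have e2 := hd1 (A + i) (by omega) (by omega)
      have e3 : A + (i + 1) = A + i + 1 := by ring
      rw [e3]; push_cast; linarith
  have hsinv : 0 < 2 / √η := by positivity
  have hIR : I ≤ R := by
    have : (I : ℝ) ≤ R := by linarith
    exact_mod_cast this
  have hex : ∃ i : ℕ, 2 * (h : ℝ) ≤ d (A + i) := by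
    refine ⟨I, ?_⟩
    have e1 := hgrow I hIR
    rw [div_le_iff₀ hη] at hI1
    linarith
  obtain ⟨i0, hi0, hmin⟩ : ∃ i0, 2 * (h : ℝ) ≤ d (A + i0) ∧ ∀ i < i0, ¬ 2 * (h : ℝ) ≤ d (A + i) :=
    ⟨Nat.find hex, Nat.find_spec hex, fun i hi => Nat.find_min hex hi⟩
  have hi0I : i0 ≤ I := by
    by_contra hcon
    push Not at hcon
    apply hmin I hcon
    have e1 := hgrow I hIR
    rw [div_le_iff₀ hη] at hI1
    linarith
  obtain ⟨k1, hk1⟩ : ∃ k1, k1 = A + i0 := ⟨_, rfl⟩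
  rw [← hk1] at hi0
  have hk1A : A ≤ k1 := by omega
  have hdk1 : d k1 ≤ 2 * h + 2 * η := by
    rcases Nat.eq_zero_or_pos i0 with h0 | h0
    · rw [hk1, h0, add_zero]; linarith
    · have e1 := hmin (i0 - 1) (by omega)
      push Not at e1
      have e2 := hd2 (A + (i0 - 1)) (by omega) (by omega)
      have e3 : A + (i0 - 1) + 1 = k1 := by omega
      rw [e3] at e2
      linarith
  obtain ⟨r2, hr2⟩ : ∃ r2 : ℕ, r2 = ⌈2 / √η⌉₊ + 1 := ⟨_, rfl⟩
  have hr21 : 2 / √η + 1 ≤ r2 := by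
    rw [hr2]; push_cast
    have := Nat.le_ceil (2 / √η)
    linarith
  have hr22 : (r2 : ℝ) ≤ 2 / √η + 2 := by
    rw [hr2]; push_cast
    have := Nat.ceil_lt_add_one (by positivity : 0 ≤ 2 / √η)
    linarith
  have hk1R : k1 + r2 ≤ A + R := by
    have : (I : ℝ) + r2 ≤ R := by linarith
    have h' : I + r2 ≤ R := by exact_mod_cast this
    omega
  have hdr : ∀ r : ℕ, r ≤ r2 → 2 * (h : ℝ) + r * η ≤ d (k1 + r) ∧
      d (k1 + r) ≤ 2 * h + 2 * η * (r + 1) := by
    intro r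
    induction r with
    | zero => intro _; simp; constructor <;> linarith
    | succ r ih =>
      intro hr
      obtain ⟨e1, e2⟩ := ih (by omega)
      have e3 := hd1 (k1 + r) (by omega) (by omega)
      have e4 := hd2 (k1 + r) (by omega) (by omega)
      have e5 : k1 + (r + 1) = k1 + r + 1 := by ring
      rw [e5]; push_cast
      constructor <;> linarith
  obtain ⟨v, hv⟩ : ∃ v : ℕ → ℝ, ∀ r, v r = u (k1 + r) - u k1 - 2 * h * r := ⟨_, fun r => rfl⟩
  have hv0 : v 0 = 0 := by rw [hv]; simp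
  have hvstep : ∀ r : ℕ, v (r + 1) - v r = d (k1 + r) - 2 * h := by
    intro r
    rw [hv, hv, hd]
    have : k1 + (r + 1) = k1 + r + 1 := by ring
    rw [this]; push_cast; ring
  have hvlow : ∀ r : ℕ, r ≤ r2 → η * (r * (r - 1) / 2) ≤ v r := by
    intro r
    induction r with
    | zero => intro _; rw [hv0]; simp
    | succ r ih =>
      intro hr
      have e1 := ih (by omega)
      have e2 := hvstep r
      have e3 := (hdr r (by omega)).1
      push_cast
      nlinarith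
  have hv2 : 2 ≤ v r2 := by
    refine le_trans ?_ (hvlow r2 le_rfl)
    have e1 : (2 / √η) * (2 / √η) ≤ (r2 : ℝ) * (r2 - 1) := by
      apply mul_le_mul (by linarith) (by linarith) (by positivity) (by positivity)
    have e2 : (2 / √η) * (2 / √η) = 4 / η := by
      rw [div_mul_div_comm, hsq]; norm_num
    rw [e2] at e1
    calc (2 : ℝ) = η * (4 / η / 2) := by field_simp; norm_num
      _ ≤ η * (r2 * (r2 - 1) / 2) := by gcongr
  obtain ⟨j0, hj0⟩ : ∃ j0 : ℤ, j0 = ⌊(τ - u k1) / 2⌋ := ⟨_, rfl⟩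
  have hj1 : 2 * (j0 : ℝ) ≤ τ - u k1 := by
    have := Int.floor_le ((τ - u k1) / 2)
    rw [← hj0] at this; linarith
  have hj2 : τ - u k1 < 2 * (j0 : ℝ) + 2 := by
    have := Int.lt_floor_add_one ((τ - u k1) / 2)
    rw [← hj0] at this; linarith
  obtain ⟨r, hr, hr'⟩ := SqrtParity.exists_step v hv0 r2 (τ - u k1 - 2 * j0) ε (by linarith)
    (by linarith) (by linarith) (by
      intro r hr
      rw [hvstep]
      have e1 := (hdr r hr.le).2
      have e2 : (r : ℝ) + 1 ≤ r2 := by exact_mod_cast hr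
      have e3 : 2 * η * ((r : ℝ) + 1) ≤ 8 * √η := by
        calc 2 * η * ((r : ℝ) + 1) ≤ 2 * η * (2 / √η + 2) :=
              mul_le_mul_of_nonneg_left (e2.trans hr22) (by positivity)
          _ = 4 * (η / √η) + 4 * η := by ring
          _ = 4 * √η + 4 * (√η * √η) := by
              rw [hsq]
              congr 2
              rw [div_eq_iff hs0.ne', hsq]
          _ ≤ 4 * √η + 4 * (√η * 1) := by gcongr
          _ = _ := by ring
      linarith)
  refine ⟨k1 + r, by omega, by omega, h * r - j0, ?_⟩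
  have e1 : u (k1 + r) = v r + u k1 + 2 * h * r := by rw [hv]; ring
  rw [abs_sub_comm] at hr'
  have e2 : u (k1 + r) - τ - 2 * ((h * r - j0 : ℤ) : ℝ) = v r - (τ - u k1 - 2 * j0) := by
    rw [e1]; push_cast; ring
  rw [e2]; exact hr'

end Pool.Agent.SqrtOne
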