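import Mathlib
import Pool.Agent.SqrtOne.Adj

set_option autoImplicit false

/-!
# The window of multipliers used for the parity lemma
-/

namespace Pool.Agent.SqrtOne

open Real Pool.Agent.SqrtParity

theorem mid_interval {n g : ℝ} (hn : 1 ≤ n) (hg0 : 0 < g) (hg1 : g ≤ 1 / 4) :
    ∃ a b : ℝ, √n / 2 ≤ a ∧ b ≤ 3 / 2 * √n ∧ g * √n / 24 ≤ b - a ∧
      ∀ y : ℝ, n + a ≤ y → y ≤ n + b → Mid n g y := by
  obtain ⟨hm1, hm2⟩ := mu_bounds n
  have hn0 : 0 < n := by linarith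
  have hs := Real.sq_sqrt hn0.le
  have hs0 : 0 < √n := Real.sqrt_pos.2 hn0
  obtain ⟨a, ha⟩ : ∃ a, a = √((mu n - 9 * g / 16) * n) := ⟨_, rfl⟩
  obtain ⟨b, hb⟩ : ∃ b, b = √((mu n - 7 * g / 16) * n) := ⟨_, rfl⟩
  have ha2 : a ^ 2 = (mu n - 9 * g / 16) * n := by
    rw [ha]; exact Real.sq_sqrt (mul_nonneg (by linarith) hn0.le)
  have hb2 : b ^ 2 = (mu n - 7 * g / 16) * n := by
    rw [hb]; exact Real.sq_sqrt (mul_nonneg (by linarith) hn0.le)
  have ha0 : 0 < a := by rw [ha]; exact Real.sqrt_pos.2 (mul_pos (by linarith) hn0)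
  have hb0 : 0 < b := by rw [hb]; exact Real.sqrt_pos.2 (mul_pos (by linarith) hn0)
  have h1 : a ≤ 3 / 2 * √n := by
    apply le_of_sq_le_sq _ (by positivity); nlinarith
  have h2 : b ≤ 3 / 2 * √n := by
    apply le_of_sq_le_sq _ (by positivity); nlinarith
  have hdiff : g * √n / 24 ≤ b - a := by
    have e1 : (b - a) * (a + b) = g / 8 * n := by nlinarith
    have e2 : 0 ≤ b - a := by
      by_contra hcon
      push Not at hcon
      nlinarith [mul_pos hg0 hn0]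
    have e3 : g / 8 * n ≤ (b - a) * (3 * √n) := by
      rw [← e1]; gcongr; linarith
    have e4 : (g * √n / 24) * (3 * √n) ≤ (b - a) * (3 * √n) := by
      calc (g * √n / 24) * (3 * √n) = g / 8 * (√n) ^ 2 := by ring
        _ = g / 8 * n := by rw [hs]
        _ ≤ _ := e3
    exact le_of_mul_le_mul_right e4 (by positivity)
  refine ⟨a, b, ?_, h2, hdiff, ?_⟩
  · apply le_of_sq_le_sq _ ha0.le; nlinarith
  · intro y h1 h2
    refine ⟨by linarith, ?_, ?_⟩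
    · rw [← ha2]; apply pow_le_pow_left₀ ha0.le; linarith
    · rw [← hb2]; apply pow_le_pow_left₀ (by linarith); linarith

/-- consequences of the size conditions -/
theorem size_facts {s g t : ℝ} (hg0 : 0 < g) (hg1 : g ≤ 1 / 4)
    (h1 : 10 ^ 5 ≤ g * t) (h2 : 2 * 10 ^ 4 * t ^ 3 ≤ g ^ 2 * s) :
    4 * 10 ^ 5 ≤ t ∧ 8 * 10 ^ 4 * t ^ 3 ≤ g * s ∧ 32 * 10 ^ 4 * t ^ 3 ≤ s := by
  have ht : 4 * 10 ^ 5 ≤ t := by
    by_contra hcon
    push Not at hcon
    nlinarith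
  have ht0 : 0 < t := by linarith
  have h3 : 8 * 10 ^ 4 * t ^ 3 ≤ g * s := by
    have e1 : g * (8 * 10 ^ 4 * t ^ 3) ≤ g * (g * s) := by
      calc g * (8 * 10 ^ 4 * t ^ 3) ≤ 1 / 4 * (8 * 10 ^ 4 * t ^ 3) := by gcongr
        _ = 2 * 10 ^ 4 * t ^ 3 := by ring
        _ ≤ g ^ 2 * s := h2
        _ = _ := by ring
    exact le_of_mul_le_mul_left e1 hg0
  refine ⟨ht, h3, ?_⟩
  have e1 : g * (32 * 10 ^ 4 * t ^ 3) ≤ g * s := by
    calc g * (32 * 10 ^ 4 * t ^ 3) ≤ 1 / 4 * (32 * 10 ^ 4 * t ^ 3) := by gcongr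
      _ = 8 * 10 ^ 4 * t ^ 3 := by ring
      _ ≤ _ := h3
  exact le_of_mul_le_mul_left e1 hg0

/-- the position function -/
noncomputable def Th (n : ℝ) (j k : ℕ) : ℝ := k * j / 2 - n / (2 * (k + 1))

theorem window {n g t : ℝ} (hn : 1 ≤ n) (hg0 : 0 < g) (hg1 : g ≤ 1 / 4) {j : ℕ}
    (ht : t ^ 2 = j) (ht0 : 0 < t) (h1 : 10 ^ 5 ≤ g * t) (h2 : 2 * 10 ^ 4 * t ^ 3 ≤ g ^ 2 * √n)
    {a b : ℝ} (ha : √n / 2 ≤ a) (hb : b ≤ 3 / 2 * √n) (hab : g * √n / 24 ≤ b - a) :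
    ∃ A R : ℕ, √n / (2 * t) ≤ A ∧ (A : ℝ) ≤ 4 * √n / t ∧ g * √n / (200 * t ^ 2) - 1 ≤ R ∧
      (R : ℝ) ≤ g * √n / (200 * t ^ 2) ∧
      ∀ k, A ≤ k → k ≤ A + R → a + k ≤ Th n j k ∧ Th n j k ≤ b - 2 * k := by
  classical
  obtain ⟨f1, f2, f3⟩ := size_facts hg0 hg1 h1 h2
  have hn0 : 0 < n := by linarith
  obtain ⟨s, hsdef⟩ : ∃ s, s = √n := ⟨_, rfl⟩
  rw [← hsdef] at ha hb hab h2 f2 f3 ⊢
  have hs : s ^ 2 = n := by rw [hsdef]; exact Real.sq_sqrt hn0.le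
  have hs0 : 0 < s := by rw [hsdef]; exact Real.sqrt_pos.2 hn0
  have ht1 : 1 ≤ t := by linarith
  have ht3 : t ^ 2 ≤ t ^ 3 := pow_le_pow_right₀ ht1 (by norm_num)
  have ht4 : t ≤ t ^ 2 := by nlinarith
  have hst : 32 * 10 ^ 4 * t ^ 2 ≤ s := by linarith
  have hst' : 32 * 10 ^ 4 * t ≤ s := by linarith
  have hba : a ≤ b := by nlinarith [mul_pos hg0 hs0]
  -- the sequence
  have hKw : a ≤ (⌊4 * s / t⌋₊ : ℝ) * (t ^ 2 / 2 - 1) - n / (2 * ((⌊4 * s / t⌋₊ : ℝ) + 1)) := by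
    obtain ⟨K, hK⟩ : ∃ K : ℕ, K = ⌊4 * s / t⌋₊ := ⟨_, rfl⟩
    rw [← hK]
    have hK1 : 4 * s / t < K + 1 := by rw [hK]; exact Nat.lt_floor_add_one _
    have e1 : n / (2 * (K + 1)) ≤ s * t / 8 := by
      rw [div_le_iff₀ (by positivity), ← hs]
      rw [div_lt_iff₀ ht0] at hK1
      nlinarith only [mul_le_mul_of_nonneg_left hK1.le hs0.le]
    have e2 : s * t - t ^ 2 / 4 ≤ K * (t ^ 2 / 2 - 1) := by
      have : 4 * s / t - 1 ≤ K := by linarith
      calc s * t - t ^ 2 / 4 = (4 * s / t - 1) * (t ^ 2 / 4) := by field_simp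
        _ ≤ K * (t ^ 2 / 2 - 1) := by
            apply mul_le_mul this (by nlinarith only [ht4, f1]) (by positivity) (by positivity)
    have e3 : s * 4 ≤ s * t := mul_le_mul_of_nonneg_left (by linarith) hs0.le
    linarith
  have hex : ∃ k : ℕ, a ≤ k * (t ^ 2 / 2 - 1) - n / (2 * (k + 1)) := ⟨_, hKw⟩
  obtain ⟨A, hA, hmin⟩ : ∃ A : ℕ, a ≤ A * (t ^ 2 / 2 - 1) - n / (2 * (A + 1)) ∧
      ∀ k < A, ¬ a ≤ k * (t ^ 2 / 2 - 1) - n / (2 * (k + 1)) :=
    ⟨Nat.find hex, Nat.find_spec hex, fun i hi => Nat.find_min hex hi⟩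
  have hA1 : 1 ≤ A := by
    rcases Nat.eq_zero_or_pos A with h | h
    · exfalso
      rw [h] at hA
      simp at hA
      linarith
    · exact h
  have hAr : (1 : ℝ) ≤ A := by exact_mod_cast hA1
  have hA0 : (0 : ℝ) < A := by linarith
  have hAA : n ≤ t ^ 2 * (A * (A + 1)) := by
    have e1 : n / (2 * (A + 1)) ≤ A * (t ^ 2 / 2 - 1) := by linarith
    rw [div_le_iff₀ (by positivity)] at e1
    nlinarith
  have hA2 : (A : ℝ) ≤ 4 * s / t := by
    by_contra hcon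
    push Not at hcon
    -- then the floor works
    have hK : ⌊4 * s / t⌋₊ < A := by
      rw [Nat.floor_lt (by positivity)]; exact hcon
    exact hmin _ hK hKw
  have hA3 : s / (2 * t) ≤ A := by
    have e1 : s ≤ t * (A + 1) := by
      apply le_of_sq_le_sq _ (by positivity)
      rw [hs, mul_pow]
      refine hAA.trans ?_
      have e0 : (A : ℝ) * (A + 1) ≤ ((A : ℝ) + 1) ^ 2 := by nlinarith only [hAr]
      exact mul_le_mul_of_nonneg_left e0 (by positivity)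
    rw [div_le_iff₀ (by positivity)]
    have e2 : t * 1 ≤ t * A := mul_le_mul_of_nonneg_left hAr ht0.le
    linarith
  have hAup : A * (t ^ 2 / 2 - 1) - n / (2 * (A + 1)) ≤ a + t ^ 2 := by
    have e1 := hmin (A - 1) (by omega)
    push Not at e1
    have e2 : ((A - 1 : ℕ) : ℝ) = A - 1 := by rw [Nat.cast_sub hA1]; norm_num
    rw [e2] at e1
    have e3 : n / (2 * ((A : ℝ) - 1 + 1)) - n / (2 * (A + 1)) = n / (2 * (A * (A + 1))) := by
      rw [sub_add_cancel]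
      field_simp; ring
    have e4 : n / (2 * (A * (A + 1))) ≤ t ^ 2 / 2 := by
      rw [div_le_iff₀ (by positivity)]; linarith
    linarith
  refine ⟨A, ⌊g * s / (200 * t ^ 2)⌋₊, hA3, hA2, ?_, Nat.floor_le (by positivity), ?_⟩
  · have := Nat.lt_floor_add_one (g * s / (200 * t ^ 2))
    linarith
  · intro k hk1 hk2
    obtain ⟨i, rfl⟩ := Nat.exists_eq_add_of_le hk1
    have hiR : (i : ℝ) ≤ g * s / (200 * t ^ 2) := by
      have e1 : i ≤ ⌊g * s / (200 * t ^ 2)⌋₊ := by omega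
      have e2 : (i : ℝ) ≤ (⌊g * s / (200 * t ^ 2)⌋₊ : ℝ) := by exact_mod_cast e1
      exact e2.trans (Nat.floor_le (by positivity))
    have hi0 : (0 : ℝ) ≤ i := by positivity
    have key : n / (2 * (A + 1)) - n / (2 * ((A : ℝ) + i + 1)) = i * (n / (2 * ((A + 1) * (A + i + 1)))) := by
      field_simp; ring
    have k0 : 0 ≤ n / (2 * (((A : ℝ) + 1) * (A + i + 1))) := by positivity
    have k1 : n / (2 * (((A : ℝ) + 1) * (A + i + 1))) ≤ t ^ 2 / 2 := by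
      rw [div_le_iff₀ (by positivity)]
      have e0 : (A : ℝ) * (A + 1) ≤ ((A : ℝ) + 1) * (A + i + 1) := by nlinarith
      have : t ^ 2 * (A * (A + 1)) ≤ t ^ 2 * (((A : ℝ) + 1) * (A + i + 1)) :=
        mul_le_mul_of_nonneg_left e0 (by positivity)
      linarith
    have k2 : 0 ≤ i * (n / (2 * (((A : ℝ) + 1) * (A + i + 1)))) := by positivity
    have k3 : i * (n / (2 * (((A : ℝ) + 1) * (A + i + 1)))) ≤ i * (t ^ 2 / 2) := by gcongr
    have k4 : 0 ≤ i * (t ^ 2 / 2 - 1) := mul_nonneg hi0 (by nlinarith)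
    have l1 : i * t ^ 2 ≤ g * s / 200 := by
      calc i * t ^ 2 ≤ g * s / (200 * t ^ 2) * t ^ 2 :=
            mul_le_mul_of_nonneg_right hiR (by positivity)
        _ = _ := by field_simp
    have l2 : (i : ℝ) ≤ i * t ^ 2 := by
      have : (i : ℝ) * 1 ≤ i * t ^ 2 := mul_le_mul_of_nonneg_left (by linarith) hi0
      linarith
    have l3 : t ^ 2 ≤ g * s / 200 := by linarith
    have l4 : (A : ℝ) ≤ g * s / 10000 := by
      refine hA2.trans ?_
      rw [div_le_iff₀ ht0]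
      have : 10 ^ 5 * s ≤ g * t * s := mul_le_mul_of_nonneg_right h1 hs0.le
      linarith
    unfold Th
    push_cast
    rw [← ht]
    constructor
    · linarith
    · linarith

end Pool.Agent.SqrtOne
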