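import Mathlib
import Pool.Agent.SqrtOne.Window
import Pool.Agent.SqrtOne.Sweep

set_option autoImplicit false

/-!
# The value on a block depends only on the parity of its index
-/

namespace Pool.Agent.SqrtOne

open Real Pool.Agent.SqrtParity

theorem D_one_second {n : ℝ} {k : ℕ} (hk : 1 ≤ k) :
    D n (k + 2) 1 - 2 * D n (k + 1) 1 + D n k 1
      = 2 * n * (1 / ((k : ℝ) * (k + 1) * (k + 2)) + 1 / (((k : ℝ) + 1) * (k + 2) * (k + 3))) := by
  have hk0 : (0 : ℝ) < k := by exact_mod_cast hk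
  unfold D
  push_cast
  have h1 : (k : ℝ) + 2 + 1 = k + 3 := by ring
  have h2 : (k : ℝ) + 1 + 1 = k + 2 := by ring
  rw [h1, h2]
  field_simp
  ring

theorem D_one_bounds {n A : ℝ} {k : ℕ} (hn : 0 < n) (hA : 0 < A) (h1 : A ≤ k)
    (h2 : (k : ℝ) + 3 ≤ 5 / 4 * A) :
    2 * n / A ^ 3 ≤ D n (k + 2) 1 - 2 * D n (k + 1) 1 + D n k 1 ∧
      D n (k + 2) 1 - 2 * D n (k + 1) 1 + D n k 1 ≤ 2 * (2 * n / A ^ 3) := by
  have hk0 : (0 : ℝ) < k := by linarith
  have hk1 : 1 ≤ k := by exact_mod_cast hk0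
  rw [D_one_second hk1]
  have l1 : 1 / (5 / 4 * A) ^ 3 ≤ 1 / ((k : ℝ) * (k + 1) * (k + 2)) := by
    apply one_div_le_one_div_of_le (by positivity)
    calc (k : ℝ) * (k + 1) * (k + 2) ≤ (5 / 4 * A) * (5 / 4 * A) * (5 / 4 * A) := by
          gcongr <;> linarith
      _ = _ := by ring
  have l2 : 1 / (5 / 4 * A) ^ 3 ≤ 1 / (((k : ℝ) + 1) * (k + 2) * (k + 3)) := by
    apply one_div_le_one_div_of_le (by positivity)
    calc ((k : ℝ) + 1) * (k + 2) * (k + 3) ≤ (5 / 4 * A) * (5 / 4 * A) * (5 / 4 * A) := by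
          gcongr <;> linarith
      _ = _ := by ring
  have u1 : 1 / ((k : ℝ) * (k + 1) * (k + 2)) ≤ 1 / A ^ 3 := by
    apply one_div_le_one_div_of_le (by positivity)
    calc A ^ 3 = A * A * A := by ring
      _ ≤ _ := by gcongr <;> linarith
  have u2 : 1 / (((k : ℝ) + 1) * (k + 2) * (k + 3)) ≤ 1 / A ^ 3 := by
    apply one_div_le_one_div_of_le (by positivity)
    calc A ^ 3 = A * A * A := by ring
      _ ≤ _ := by gcongr <;> linarith
  constructor
  · calc 2 * n / A ^ 3 ≤ 2 * n * (1 / (5 / 4 * A) ^ 3 + 1 / (5 / 4 * A) ^ 3) := by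
          rw [div_eq_mul_inv, mul_pow]
          have : (1 : ℝ) / ((5 / 4) ^ 3 * A ^ 3) + 1 / ((5 / 4) ^ 3 * A ^ 3)
              = 128 / 125 * (A ^ 3)⁻¹ := by
            field_simp; norm_num
          rw [this]
          have : 0 < n * (A ^ 3)⁻¹ := by positivity
          linarith
      _ ≤ _ := by gcongr
  · calc 2 * n * (1 / ((k : ℝ) * (k + 1) * (k + 2)) + 1 / (((k : ℝ) + 1) * (k + 2) * (k + 3)))
        ≤ 2 * n * (1 / A ^ 3 + 1 / A ^ 3) := by gcongr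
      _ = _ := by ring

/-- `K (mref + j) = K (mref + j + 2)` in the range. -/
theorem parity_step {f : ℕ → ℤ} {n g : ℝ} {e : ℤ} (h : Hyp f n g e) {j : ℕ} {t : ℝ}
    (ht : t ^ 2 = j) (ht0 : 0 < t) (h1 : 10 ^ 5 ≤ g * t) (h2 : 2 * 10 ^ 4 * t ^ 3 ≤ g ^ 2 * √n) :
    K f n g (mref n + j) = K f n g (mref n + j + 2) := by
  have hn := h.hn
  have hg0 := h.hg0
  have hg1 := h.hg1
  obtain ⟨f1, f2, f3⟩ := size_facts hg0 hg1 h1 h2
  have hn0 : 0 < n := by linarith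
  have hs : √n ^ 2 = n := Real.sq_sqrt hn0.le
  have hs0 : 0 < √n := Real.sqrt_pos.2 hn0
  have ht1 : 1 ≤ t := by linarith
  have ht3 : t ^ 2 ≤ t ^ 3 := pow_le_pow_right₀ ht1 (by norm_num)
  have ht4 : t ≤ t ^ 2 := by nlinarith only [ht1]
  have hst : 32 * 10 ^ 4 * t ^ 2 ≤ √n := by linarith
  have hst' : 32 * 10 ^ 4 * t ≤ √n := by linarith
  have hgst : 8 * 10 ^ 4 * t ^ 2 ≤ g * √n := by linarith
  have hgst' : 8 * 10 ^ 4 * t ≤ g * √n := by linarith
  have hng : 64 / g ≤ √n := by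
    rw [div_le_iff₀ hg0]; linarith
  obtain ⟨a, b, ha, hb, hab, hmid⟩ := mid_interval hn hg0 hg1
  obtain ⟨A, R, hA1, hA2, hR1, hR2, hwin⟩ := window hn hg0 hg1 ht ht0 h1 h2 ha hb hab
  have hA0 : (0 : ℝ) < A := lt_of_lt_of_le (by positivity) hA1
  have hA1' : √n ≤ A * (2 * t) := by rwa [div_le_iff₀ (by positivity)] at hA1
  have hA2' : A * t ≤ 4 * √n := by rwa [le_div_iff₀ ht0] at hA2
  -- size of `R`
  have hRA : (R : ℝ) + 3 ≤ A / 4 := by
    have e1 : g * √n / (200 * t ^ 2) ≤ √n / (16 * t) := by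
      rw [div_le_div_iff₀ (by positivity) (by positivity)]
      have : g * √n * (16 * t) ≤ 1 / 4 * √n * (16 * t ^ 2) := by gcongr
      nlinarith only [this, mul_pos hs0 (by positivity : 0 < t ^ 2)]
    have e2 : 3 ≤ √n / (16 * t) := by
      rw [le_div_iff₀ (by positivity)]; linarith
    have e3 : √n / (2 * t) / 4 = √n / (16 * t) + √n / (16 * t) := by field_simp; norm_num
    linarith
  obtain ⟨η, hη⟩ : ∃ η : ℝ, η = 2 * n / (A : ℝ) ^ 3 := ⟨_, rfl⟩
  have hη0 : 0 < η := by rw [hη]; positivity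
  -- `√n ^ 3 ≤ 8 t ^ 3 A ^ 3`
  have hA3 : √n ^ 3 ≤ 8 * t ^ 3 * (A : ℝ) ^ 3 := by
    calc √n ^ 3 ≤ (A * (2 * t)) ^ 3 := pow_le_pow_left₀ hs0.le hA1' 3
      _ = _ := by ring
  have hA3' : t ^ 3 * (A : ℝ) ^ 3 ≤ 64 * √n ^ 3 := by
    calc t ^ 3 * (A : ℝ) ^ 3 = (A * t) ^ 3 := by ring
      _ ≤ (4 * √n) ^ 3 := pow_le_pow_left₀ (by positivity) hA2' 3
      _ = _ := by ring
  have hηle : η ≤ 16 * t ^ 3 / √n := by
    rw [hη, div_le_div_iff₀ (by positivity) hs0]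
    calc 2 * n * √n = 2 * √n ^ 3 := by rw [← hs]; rw [Real.sqrt_sq hs0.le]; ring
      _ ≤ 2 * (8 * t ^ 3 * (A : ℝ) ^ 3) := by gcongr
      _ = _ := by ring
  have hη2 : η ≤ (g / 32) ^ 2 := by
    refine hηle.trans ?_
    rw [div_le_iff₀ hs0]
    nlinarith only [h2, pow_pos ht0 3]
  have hη1 : η ≤ 1 := by
    refine hη2.trans ?_
    nlinarith only [hg0, hg1]
  have hsη : √η ≤ g / 32 := by
    rw [← Real.sqrt_sq (by positivity : 0 ≤ g / 32)]
    exact Real.sqrt_le_sqrt hη2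
  have hinv : 1 / η ≤ 32 * √n / t ^ 3 := by
    rw [hη, one_div_div, div_le_div_iff₀ (by positivity) (by positivity)]
    calc (A : ℝ) ^ 3 * t ^ 3 = t ^ 3 * (A : ℝ) ^ 3 := by ring
      _ ≤ 64 * √n ^ 3 := hA3'
      _ = 32 * √n * (2 * √n ^ 2) := by ring
      _ = 32 * √n * (2 * n) := by rw [hs]
  have hRbig : 2 / η + 2 / √η + 4 ≤ R := by
    have hsη0 : 0 < √η := Real.sqrt_pos.2 hη0
    have e1 : 2 / √η ≤ 1 + 1 / η := by
      have : 1 / η = (1 / √η) ^ 2 := by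
        rw [div_pow, Real.sq_sqrt hη0.le, one_pow]
      rw [this]
      have e2 : 2 / √η = 2 * (1 / √η) := by ring
      rw [e2]
      nlinarith only [sq_nonneg (1 / √η - 1)]
    have e2 : 2 / η = 2 * (1 / η) := by ring
    have e3 : 32 * √n / t ^ 3 ≤ g * √n / (200 * t ^ 2) / 6 := by
      rw [div_div, div_le_div_iff₀ (by positivity) (by positivity)]
      have : 10 ^ 5 * (√n * t ^ 2) ≤ g * t * (√n * t ^ 2) :=
        mul_le_mul_of_nonneg_right h1 (by positivity)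
      nlinarith only [this, mul_pos hs0 (by positivity : 0 < t ^ 2)]
    have e4 : 12 ≤ g * √n / (200 * t ^ 2) := by
      rw [le_div_iff₀ (by positivity)]
      linarith
    rw [e2]
    linarith
  obtain ⟨k, hk1, hk2, J, hJ⟩ := sweep (u := fun k => D n k 1) (A := A) (R := R) (ε := g / 4)
    hη0 hη1 (by
      intro k hk1 hk2
      have c1 : (A : ℝ) ≤ k := by exact_mod_cast hk1
      have c2 : (k : ℝ) ≤ A + R := by exact_mod_cast hk2
      rw [hη]
      exact (D_one_bounds hn0 hA0 c1 (by linarith)).1) (by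
      intro k hk1 hk2
      have c1 : (A : ℝ) ≤ k := by exact_mod_cast hk1
      have c2 : (k : ℝ) ≤ A + R := by exact_mod_cast hk2
      rw [hη]
      exact (D_one_bounds hn0 hA0 c1 (by linarith)).2) hRbig (by linarith) (j : ℝ)
  obtain ⟨w1, w2⟩ := hwin k hk1 hk2
  have c1 : (A : ℝ) ≤ k := by exact_mod_cast hk1
  have hk0 : (0 : ℝ) < k := by linarith
  have hkn : 1 ≤ k := by exact_mod_cast hk0
  have hkD : (k : ℝ) * D n k 1 = 2 * n - n / (k + 1) := by
    unfold D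
    push_cast
    field_simp
    ring
  unfold Th at w1 w2
  have hThk : n / (2 * ((k : ℝ) + 1)) = n / (k + 1) / 2 := by field_simp
  rw [hThk] at w1 w2
  have hkJ : |(k : ℝ) * D n k 1 - k * (j + 2 * J)| ≤ k * (g / 4) := by
    have : (k : ℝ) * D n k 1 - k * (j + 2 * J) = k * (D n k 1 - j - 2 * J) := by ring
    rw [this, abs_mul, abs_of_pos hk0]
    gcongr
  rw [hkD, abs_le] at hkJ
  have hg4 : (k : ℝ) * (g / 4) ≤ k := by nlinarith only [hk0, hg1]
  have hJpos : 0 < (j : ℤ) + J := by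
    have : (0 : ℝ) < (j : ℝ) + J := by
      by_contra hcon
      push Not at hcon
      have e1 : (k : ℝ) * (j + J) ≤ 0 := mul_nonpos_of_nonneg_of_nonpos hk0.le hcon
      have ha0 : 0 < a := lt_of_lt_of_le (by positivity) ha
      nlinarith only [e1, hkJ.2, hkJ.1, w1, hg4, hn0, ha0, hk0]
    exact_mod_cast this
  obtain ⟨z, hz⟩ : ∃ z : ℕ, (z : ℤ) = j + J := ⟨((j : ℤ) + J).toNat, Int.toNat_of_nonneg hJpos.le⟩
  have hzr : (z : ℝ) = j + J := by exact_mod_cast congrArg (Int.cast : ℤ → ℝ) hz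
  have m1 : Mid n g ((k * z : ℕ) : ℝ) := by
    apply hmid
    · push_cast; rw [hzr]
      nlinarith only [hkJ.2, hkJ.1, w1, hg4]
    · push_cast; rw [hzr]
      nlinarith only [hkJ.2, hkJ.1, w2, hg4, hk0]
  have m2 : Mid n g ((k * (z + 1) : ℕ) : ℝ) := by
    apply hmid
    · push_cast; rw [hzr]
      nlinarith only [hkJ.2, hkJ.1, w1, hg4, hk0]
    · push_cast; rw [hzr]
      nlinarith only [hkJ.2, hkJ.1, w2, hg4, hk0]
  have hN : |D n k 1 - ((j + 2 * J : ℤ) : ℝ)| ≤ g / 4 := by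
    push_cast
    rw [← sub_sub]; exact hJ
  have hkk : √n ≤ k * (2 * t) := by
    refine hA1'.trans ?_
    gcongr
  have herr : 2 * ((1 : ℕ) : ℝ) / k + 3 / 2 * ((1 : ℕ) : ℝ) ^ 2 * √n / (k : ℝ) ^ 2 ≤ g / 16 := by
    have e1 : 2 * ((1 : ℕ) : ℝ) / k ≤ g / 32 := by
      push_cast
      rw [div_le_iff₀ hk0]
      have : g * √n ≤ g * (k * (2 * t)) := by gcongr
      nlinarith only [this, hgst', ht1, hg0, hk0]
    have e2 : 3 / 2 * ((1 : ℕ) : ℝ) ^ 2 * √n / (k : ℝ) ^ 2 ≤ g / 32 := by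
      push_cast
      rw [div_le_iff₀ (by positivity)]
      have e3 : g * √n * √n ≤ g * (k * (2 * t)) * (k * (2 * t)) := by gcongr
      have e4 : 8 * 10 ^ 4 * t ^ 2 * √n ≤ g * √n * √n := mul_le_mul_of_nonneg_right hgst hs0.le
      have e5 : t ^ 2 * (8 * 10 ^ 4 * √n) ≤ t ^ 2 * (4 * g * k ^ 2) := by nlinarith only [e3, e4]
      have e6 := le_of_mul_le_mul_left e5 (by positivity : 0 < t ^ 2)
      nlinarith only [e6, hs0]
    linarith
  have r1 := adj h hng hkn m1 hN herr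
  have r2 := adj h hng hkn m2 hN herr
  have i1 : mref n + 2 * ((1 : ℕ) : ℤ) * (z : ℤ) - (j + 2 * J) = mref n + j := by
    rw [hz]; push_cast; ring
  have i2 : mref n + 2 * ((1 : ℕ) : ℤ) * ((z + 1 : ℕ) : ℤ) - (j + 2 * J) = mref n + j + 2 := by
    push_cast; rw [hz]; ring
  rw [i1] at r1
  rw [i2] at r2
  have r3 := r1.symm.trans r2
  have hsq := K_sq h (mref n)
  calc K f n g (mref n + j) = (K f n g (mref n) * K f n g (mref n)) * K f n g (mref n + j) := by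
        rw [hsq, one_mul]
    _ = K f n g (mref n) * (K f n g (mref n) * K f n g (mref n + j)) := by ring
    _ = K f n g (mref n) * (K f n g (mref n) * K f n g (mref n + j + 2)) := by rw [r3]
    _ = (K f n g (mref n) * K f n g (mref n)) * K f n g (mref n + j + 2) := by ring
    _ = _ := by rw [hsq, one_mul]

end Pool.Agent.SqrtOne
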