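import Mathlib
import Pool.Agent.SqrtOne.Parity

set_option autoImplicit false

/-!
# Generic multipliers
-/

namespace Pool.Agent.SqrtOne

open Real Pool.Agent.SqrtParity

/-! ### the two constants -/

theorem parity_step' {f : ℕ → ℤ} {n g : ℝ} {e : ℤ} (h : Hyp f n g e) {j : ℕ}
    (h1 : 10 ^ 10 ≤ g ^ 2 * j) (h2 : 4 * 10 ^ 8 * (j : ℝ) ^ 3 ≤ g ^ 4 * n) :
    K f n g (mref n + j) = K f n g (mref n + j + 2) := by
  have hg0 := h.hg0
  have hn0 : 0 < n := by linarith [h.hn]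
  have hj0 : (0 : ℝ) < j := by
    by_contra hcon
    push Not at hcon
    have : g ^ 2 * (j : ℝ) ≤ 0 := mul_nonpos_of_nonneg_of_nonpos (by positivity) hcon
    linarith
  have ht0 : 0 < √(j : ℝ) := Real.sqrt_pos.2 hj0
  have ht : √(j : ℝ) ^ 2 = j := Real.sq_sqrt hj0.le
  have hs : √n ^ 2 = n := Real.sq_sqrt hn0.le
  refine parity_step h ht ht0 ?_ ?_
  · apply le_of_sq_le_sq _ (by positivity)
    rw [mul_pow, ht]
    norm_num
    norm_num at h1
    exact h1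
  · apply le_of_sq_le_sq _ (by positivity)
    calc (2 * 10 ^ 4 * √(j : ℝ) ^ 3) ^ 2 = 4 * 10 ^ 8 * (√(j : ℝ) ^ 2) ^ 3 := by ring
      _ = 4 * 10 ^ 8 * (j : ℝ) ^ 3 := by rw [ht]
      _ ≤ g ^ 4 * n := h2
      _ = g ^ 4 * √n ^ 2 := by rw [hs]
      _ = _ := by ring

theorem parity_eq {f : ℕ → ℤ} {n g : ℝ} {e : ℤ} (h : Hyp f n g e) {j : ℕ}
    (h1 : 10 ^ 10 ≤ g ^ 2 * j) (i : ℕ)
    (h2 : 4 * 10 ^ 8 * ((j + 2 * i : ℕ) : ℝ) ^ 3 ≤ g ^ 4 * n) :
    K f n g (mref n + j) = K f n g (mref n + (j + 2 * i : ℕ)) := by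
  have hg0 := h.hg0
  induction i with
  | zero => rfl
  | succ i ih =>
    have e0 : ((j + 2 * i : ℕ) : ℝ) ≤ ((j + 2 * (i + 1) : ℕ) : ℝ) := by
      exact_mod_cast (by omega)
    have e1 : 4 * 10 ^ 8 * ((j + 2 * i : ℕ) : ℝ) ^ 3 ≤ g ^ 4 * n := by
      refine le_trans ?_ h2
      gcongr
    rw [ih e1]
    have e2 : g ^ 2 * (j : ℝ) ≤ g ^ 2 * ((j + 2 * i : ℕ) : ℝ) := by
      gcongr
      exact_mod_cast (by omega)
    rw [parity_step' h (h1.trans e2) e1]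
    congr 1
    push_cast; ring

theorem par_exists {f : ℕ → ℤ} {n g : ℝ} {e : ℤ} (h : Hyp f n g e) {J1 : ℕ} {J2 : ℝ}
    (h1 : 10 ^ 10 ≤ g ^ 2 * J1) (h2 : 4 * 10 ^ 8 * J2 ^ 3 ≤ g ^ 4 * n) :
    ∃ κ0 κ1 : ℤ, (κ0 = 1 ∨ κ0 = -1) ∧ ∀ j : ℕ, J1 ≤ j → (j : ℝ) ≤ J2 →
      K f n g (mref n) * K f n g (mref n + j) = if Even j then κ0 else κ1 := by
  have hg0 := h.hg0
  obtain ⟨E, hE, hE1, hE2⟩ : ∃ E : ℕ, Even E ∧ J1 ≤ E ∧ E ≤ J1 + 1 := by
    rcases Nat.even_or_odd J1 with h' | h'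
    · exact ⟨J1, h', le_rfl, by omega⟩
    · exact ⟨J1 + 1, h'.add_one, by omega, le_rfl⟩
  obtain ⟨O, hO, hO1, hO2⟩ : ∃ O : ℕ, Odd O ∧ J1 ≤ O ∧ O ≤ J1 + 1 := by
    rcases Nat.even_or_odd J1 with h' | h'
    · exact ⟨J1 + 1, h'.add_one, by omega, le_rfl⟩
    · exact ⟨J1, h', le_rfl, by omega⟩
  refine ⟨K f n g (mref n) * K f n g (mref n + E), K f n g (mref n) * K f n g (mref n + O), ?_, ?_⟩
  · rcases K_one_or h (mref n) with e1 | e1 <;> rcases K_one_or h (mref n + E) with e2 | e2 <;>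
      rw [e1, e2] <;> norm_num
  · intro j hj1 hj2
    have hj3 : 4 * 10 ^ 8 * (j : ℝ) ^ 3 ≤ g ^ 4 * n := by
      refine le_trans ?_ h2
      gcongr
    have low : ∀ m : ℕ, J1 ≤ m → 10 ^ 10 ≤ g ^ 2 * (m : ℝ) := by
      intro m hm
      refine h1.trans ?_
      gcongr
    split_ifs with hpar
    · obtain ⟨i, hi⟩ : ∃ i, j = E + 2 * i := by
        obtain ⟨u, hu⟩ := hpar
        obtain ⟨v, hv⟩ := hE
        exact ⟨u - v, by omega⟩
      subst hi
      rw [← parity_eq h (low E hE1) i hj3]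
    · rw [Nat.not_even_iff_odd] at hpar
      obtain ⟨i, hi⟩ : ∃ i, j = O + 2 * i := by
        obtain ⟨u, hu⟩ := hpar
        obtain ⟨v, hv⟩ := hO
        exact ⟨u - v, by omega⟩
      subst hi
      rw [← parity_eq h (low O hO1) i hj3]

/-! ### edges -/

theorem edge {f : ℕ → ℤ} {n g : ℝ} {e : ℤ} (h : Hyp f n g e) (hng : 64 / g ≤ √n)
    {J1 : ℕ} {J2 : ℝ} {κ0 κ1 : ℤ}
    (hpar : ∀ j : ℕ, J1 ≤ j → (j : ℝ) ≤ J2 →
      K f n g (mref n) * K f n g (mref n + j) = if Even j then κ0 else κ1)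
    {k l : ℕ} (hk : 1 ≤ k) (hl : 1 ≤ l) {N : ℤ} (hN : |D n k l - N| ≤ g / 4)
    (hk1 : (k : ℝ) * (J1 + 1) ≤ √n) (hk2 : (k : ℝ) ≤ g * √n / 48)
    (hj : 3 * l * √n / k + n * (l : ℝ) ^ 2 / (k : ℝ) ^ 2 + 1 ≤ J2)
    (herr : 2 * (l : ℝ) / k + 3 / 2 * (l : ℝ) ^ 2 * √n / (k : ℝ) ^ 2 ≤ g / 16) :
    f k * f (k + l) = if Even N then κ0 else κ1 := by
  have hn := h.hn
  have hg0 := h.hg0
  have hg1 := h.hg1
  have hn0 : 0 < n := by linarith
  have hk0 : (0 : ℝ) < k := by exact_mod_cast hk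
  have hl1 : (1 : ℝ) ≤ l := by exact_mod_cast hl
  obtain ⟨z, hz, -⟩ := exists_mid hn hg0 hg1 hk hk2
  have hadj := adj h hng hk hz hN herr
  obtain ⟨b0, b1, b2⟩ := hz.bounds hn hg0 hg1
  obtain ⟨θ, hθ⟩ : ∃ θ, θ = ((k * z : ℕ) : ℝ) - n := ⟨_, rfl⟩
  rw [← hθ] at b0 b1 b2
  have hzr : (z : ℝ) = (n + θ) / k := by
    rw [hθ]; push_cast; field_simp; ring
  have hdiff : 2 * (l : ℝ) * z - D n k l = 2 * l * θ / k + n * (l : ℝ) ^ 2 / (k * (k + l)) := by
    rw [hzr]; unfold D; field_simp; ring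
  rw [abs_le] at hN
  have hlo : (J1 : ℝ) ≤ 2 * l * z - N := by
    have e1 : (J1 : ℝ) + 1 ≤ 2 * l * θ / k := by
      rw [le_div_iff₀ hk0]
      calc ((J1 : ℝ) + 1) * k = k * (J1 + 1) := by ring
        _ ≤ √n := hk1
        _ = 2 * 1 * (√n / 2) := by ring
        _ ≤ 2 * l * θ := by gcongr
    have e2 : 0 ≤ n * (l : ℝ) ^ 2 / (k * (k + l)) := by positivity
    linarith
  have hhi : 2 * l * z - N ≤ J2 := by
    refine le_trans ?_ hj
    have e1 : 2 * l * θ / k ≤ 3 * l * √n / k := by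
      apply div_le_div_of_nonneg_right _ hk0.le
      calc 2 * (l : ℝ) * θ ≤ 2 * l * (3 / 2 * √n) := by gcongr
        _ = _ := by ring
    have e2 : n * (l : ℝ) ^ 2 / (k * (k + l)) ≤ n * (l : ℝ) ^ 2 / (k : ℝ) ^ 2 := by
      apply div_le_div_of_nonneg_left (by positivity) (by positivity)
      nlinarith
    linarith
  have hpos : 0 ≤ 2 * (l : ℤ) * z - N := by
    have : (0 : ℝ) ≤ 2 * l * z - N := le_trans (by positivity) hlo
    exact_mod_cast this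
  obtain ⟨j, hjz⟩ : ∃ j : ℕ, (j : ℤ) = 2 * (l : ℤ) * z - N := ⟨_, Int.toNat_of_nonneg hpos⟩
  have hjr : (j : ℝ) = 2 * l * z - N := by exact_mod_cast congrArg (Int.cast : ℤ → ℝ) hjz
  have hJ1 : J1 ≤ j := by
    have : (J1 : ℝ) ≤ j := by rw [hjr]; exact hlo
    exact_mod_cast this
  have hJ2 : (j : ℝ) ≤ J2 := by rw [hjr]; exact hhi
  have hp := hpar j hJ1 hJ2
  have e1 : mref n + 2 * (l : ℤ) * (z : ℤ) - N = mref n + j := by rw [hjz]; ring
  rw [e1, hp] at hadj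
  rw [hadj]
  have hev : Even j ↔ Even N := by
    rw [← Int.even_coe_nat, hjz]
    constructor
    · intro h'
      have := (even_two_mul ((l : ℤ) * z)).sub h'
      have e3 : 2 * ((l : ℤ) * z) - (2 * (l : ℤ) * z - N) = N := by ring
      rwa [e3] at this
    · intro h'
      have := (even_two_mul ((l : ℤ) * z)).sub h'
      rwa [← mul_assoc] at this
  simp only [hev]

theorem D_approx {n : ℝ} (hn : 0 < n) {k a l L : ℕ} (hk : 1 ≤ k) (hL : a + l ≤ L) :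
    |D n (k + a) l - ((2 * n / k * ((a + l : ℕ) : ℝ) - n / (k : ℝ) ^ 2 * ((a + l : ℕ) : ℝ) ^ 2)
      - (2 * n / k * a - n / (k : ℝ) ^ 2 * (a : ℝ) ^ 2))| ≤ 2 * n * (L : ℝ) ^ 3 / (k : ℝ) ^ 3 := by
  have hk0 : (0 : ℝ) < k := by exact_mod_cast hk
  have hLr : (a : ℝ) + l ≤ L := by exact_mod_cast hL
  have ha0 : (0 : ℝ) ≤ a := by positivity
  have hl0 : (0 : ℝ) ≤ l := by positivity
  have key : D n (k + a) l - ((2 * n / k * ((a + l : ℕ) : ℝ)
      - n / (k : ℝ) ^ 2 * ((a + l : ℕ) : ℝ) ^ 2) - (2 * n / k * a - n / (k : ℝ) ^ 2 * (a : ℝ) ^ 2))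
      = n * l * ((a : ℝ) ^ 2 / (k ^ 2 * (k + a)) + ((a : ℝ) + l) ^ 2 / (k ^ 2 * (k + a + l))) := by
    unfold D
    push_cast
    field_simp
    ring
  rw [key, abs_of_nonneg (by positivity)]
  have e1 : (a : ℝ) ^ 2 / (k ^ 2 * (k + a)) ≤ (L : ℝ) ^ 2 / (k : ℝ) ^ 3 := by
    apply div_le_div₀ (by positivity) _ (by positivity) _
    · apply pow_le_pow_left₀ ha0; linarith
    · have : 0 ≤ (k : ℝ) ^ 2 * a := by positivity
      nlinarith
  have e2 : ((a : ℝ) + l) ^ 2 / (k ^ 2 * (k + a + l)) ≤ (L : ℝ) ^ 2 / (k : ℝ) ^ 3 := by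
    apply div_le_div₀ (by positivity) _ (by positivity) _
    · apply pow_le_pow_left₀ (by positivity); linarith
    · have : 0 ≤ (k : ℝ) ^ 2 * (a + l) := by positivity
      nlinarith
  calc n * l * ((a : ℝ) ^ 2 / (k ^ 2 * (k + a)) + ((a : ℝ) + l) ^ 2 / (k ^ 2 * (k + a + l)))
      ≤ n * L * ((L : ℝ) ^ 2 / (k : ℝ) ^ 3 + (L : ℝ) ^ 2 / (k : ℝ) ^ 3) := by
        gcongr
        linarith
    _ = _ := by ring

/-! ### the combinatorial part -/

section Comb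

variable {F : ℕ → ℤ} {P : ℕ → ℝ} {L : ℕ} {τ ε : ℝ} {κ0 κ1 : ℤ}

theorem edge_symm
    (hedge : ∀ a b, a < b → b < L → ∀ N : ℤ, |P b - P a - N| ≤ τ →
      F a * F b = if Even N then κ0 else κ1) :
    ∀ a b, a ≠ b → a < L → b < L → ∀ N : ℤ, |P b - P a - N| ≤ τ →
      F a * F b = if Even N then κ0 else κ1 := by
  intro a b hab ha hb N hN
  rcases lt_or_gt_of_ne hab with h | h
  · exact hedge a b h hb N hN
  · have e1 := hedge b a h ha (-N) (by
      rw [← abs_neg]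
      convert hN using 2
      push_cast; ring)
    rw [mul_comm, e1]
    simp only [even_neg]

theorem loop (hF : ∀ a < L, F a * F a = 1)
    (hedge : ∀ a b, a < b → b < L → ∀ N : ℤ, |P b - P a - N| ≤ τ →
      F a * F b = if Even N then κ0 else κ1)
    (hdense : ∀ φ : ℝ, ∃ a < L, ∃ j : ℤ, |P a - φ - 2 * j| ≤ ε)
    {r : ℕ} (hr : 1 ≤ r) (h1 : 1 / (r : ℝ) + 2 * ε ≤ τ) (h2 : 2 * ε < 1 / r) :
    κ1 = κ0 ^ r := by
  have hr0 : (0 : ℝ) < r := by exact_mod_cast hr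
  have hr1 : (1 : ℝ) ≤ r := by exact_mod_cast hr
  have hinv : 1 / (r : ℝ) ≤ 1 := by rw [div_le_one hr0]; exact hr1
  have hinv0 : 0 < 1 / (r : ℝ) := by positivity
  have hsy := edge_symm hedge
  choose a ha j hj using hdense
  obtain ⟨A, hA⟩ : ∃ A : ℕ → ℕ, ∀ i, A i = a ((i : ℝ) * (1 / r)) := ⟨_, fun _ => rfl⟩
  obtain ⟨J, hJ⟩ : ∃ J : ℕ → ℤ, ∀ i, J i = j ((i : ℝ) * (1 / r)) := ⟨_, fun _ => rfl⟩
  have hAL : ∀ i, A i < L := fun i => by rw [hA]; exact ha _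
  have hP : ∀ i : ℕ, |P (A i) - (i : ℝ) * (1 / r) - 2 * (J i : ℝ)| ≤ ε := by
    intro i
    rw [hA, hJ]; exact hj _
  have hstep : ∀ i, F (A i) * F (A (i + 1)) = κ0 := by
    intro i
    have p1 := hP i
    have p2 := hP (i + 1)
    rw [abs_le] at p1 p2
    push_cast at p2
    have hne : A i ≠ A (i + 1) := by
      intro heq
      rw [heq] at p1
      have c1 : |1 / (r : ℝ) + 2 * ((J (i + 1) - J i : ℤ) : ℝ)| ≤ 2 * ε := by
        rw [abs_le]; push_cast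
        constructor <;> linarith
      rw [abs_le] at c1
      rcases lt_trichotomy (J (i + 1) - J i) 0 with h0 | h0 | h0
      · have : ((J (i + 1) - J i : ℤ) : ℝ) ≤ -1 := by exact_mod_cast (by omega)
        linarith
      · rw [h0] at c1; push_cast at c1; linarith
      · have : (1 : ℝ) ≤ ((J (i + 1) - J i : ℤ) : ℝ) := by exact_mod_cast (by omega)
        linarith
    have := hsy _ _ hne (hAL i) (hAL (i + 1)) (2 * (J (i + 1) - J i)) (by
      rw [abs_le]; push_cast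
      constructor <;> linarith)
    rw [this, if_pos (even_two_mul _)]
  have hind : ∀ i, 1 ≤ i → F (A 0) * F (A i) = κ0 ^ i := by
    intro i hi
    induction i, hi using Nat.le_induction with
    | base => rw [pow_one]; exact hstep 0
    | succ i hi ih =>
      calc F (A 0) * F (A (i + 1)) = (F (A 0) * F (A i)) * (F (A i) * F (A (i + 1)))
            := by
              have := hF _ (hAL i)
              calc F (A 0) * F (A (i + 1)) = F (A 0) * (F (A i) * F (A i)) * F (A (i + 1)) := by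
                    rw [this, mul_one]
                _ = _ := by ring
        _ = _ := by rw [ih, hstep, pow_succ]
  have hlast : F (A 0) * F (A r) = κ1 := by
    have p1 := hP 0
    have p2 := hP r
    rw [abs_le] at p1 p2
    have hrr : (r : ℝ) * (1 / r) = 1 := by field_simp
    rw [hrr] at p2
    push_cast at p1
    have hne : A 0 ≠ A r := by
      intro heq
      rw [heq] at p1
      have c1 : |1 + 2 * ((J r - J 0 : ℤ) : ℝ)| ≤ 2 * ε := by
        rw [abs_le]; push_cast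
        constructor <;> linarith
      rw [abs_le] at c1
      rcases lt_or_ge (J r - J 0) 0 with h0 | h0
      · have : ((J r - J 0 : ℤ) : ℝ) ≤ -1 := by exact_mod_cast (by omega)
        linarith
      · have : (0 : ℝ) ≤ ((J r - J 0 : ℤ) : ℝ) := by exact_mod_cast h0
        linarith
    have := hsy _ _ hne (hAL 0) (hAL r) (2 * (J r - J 0) + 1) (by
      rw [abs_le]; push_cast
      constructor <;> linarith)
    rw [this, if_neg]
    rw [Int.not_even_iff_odd]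
    exact ⟨_, rfl⟩
  rw [← hlast, hind r hr]

theorem generic_comb (hL : 2 ≤ L) (hF : ∀ a < L, F a * F a = 1) (hκ : κ0 = 1 ∨ κ0 = -1)
    (hedge : ∀ a b, a < b → b < L → ∀ N : ℤ, |P b - P a - N| ≤ τ →
      F a * F b = if Even N then κ0 else κ1)
    (hdense : ∀ φ : ℝ, ∃ a < L, ∃ j : ℤ, |P a - φ - 2 * j| ≤ ε)
    {r : ℕ} (hr : 1 ≤ r) (h1 : 1 / (r : ℝ) + 2 * ε ≤ τ) (h2 : 2 * ε < 1 / (r + 1)) :
    F 0 = F 1 := by
  have hr0 : (0 : ℝ) < r := by exact_mod_cast hr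
  have hε0 : 0 ≤ ε := by
    obtain ⟨a, -, j, hj⟩ := hdense 0
    exact (abs_nonneg _).trans hj
  have hrr : 1 / ((r : ℝ) + 1) ≤ 1 / r := by
    apply one_div_le_one_div_of_le hr0; linarith
  have l1 := loop hF hedge hdense hr h1 (lt_of_lt_of_le h2 hrr)
  have l2 := loop hF hedge hdense (r := r + 1) (by omega) (by push_cast; linarith)
    (by push_cast; exact h2)
  have hκ0 : κ0 = 1 := by
    rcases hκ with h | h
    · exact h
    · exfalso
      rw [l1, h, pow_succ] at l2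
      rcases neg_one_pow_eq_or ℤ r with h' | h' <;> rw [h'] at l2 <;> norm_num at l2
  have hκ1 : κ1 = 1 := by rw [l1, hκ0, one_pow]
  have hsy := edge_symm hedge
  rw [hκ0, hκ1] at hsy
  have hgo : ∀ a b, a < L → b < L → ∀ N : ℤ, |P b - P a - N| ≤ τ → F a = F b := by
    intro a b ha hb N hN
    by_cases hab : a = b
    · rw [hab]
    · have e1 := hsy a b hab ha hb N hN
      rw [ite_self] at e1
      calc F a = F a * (F b * F b) := by rw [hF b hb, mul_one]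
        _ = (F a * F b) * F b := by ring
        _ = F b := by rw [e1, one_mul]
  choose a ha j hj using hdense
  obtain ⟨m, hm⟩ : ∃ m : ℤ, m = ⌊(P 1 - P 0) / 2⌋ := ⟨_, rfl⟩
  obtain ⟨Δ, hΔ⟩ : ∃ Δ : ℝ, Δ = P 1 - P 0 - 2 * m := ⟨_, rfl⟩
  have hΔ0 : 0 ≤ Δ := by
    have := Int.floor_le ((P 1 - P 0) / 2)
    rw [← hm] at this; rw [hΔ]; linarith
  have hΔ2 : Δ ≤ 2 := by
    have := Int.lt_floor_add_one ((P 1 - P 0) / 2)
    rw [← hm] at this; rw [hΔ]; linarith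
  obtain ⟨A, hA⟩ : ∃ A : ℕ → ℕ, ∀ i, A i = a (P 0 + (i : ℝ) * (Δ / (2 * r))) := ⟨_, fun _ => rfl⟩
  obtain ⟨J, hJ⟩ : ∃ J : ℕ → ℤ, ∀ i, J i = j (P 0 + (i : ℝ) * (Δ / (2 * r))) := ⟨_, fun _ => rfl⟩
  have hAL : ∀ i, A i < L := fun i => by rw [hA]; exact ha _
  have hP : ∀ i : ℕ, |P (A i) - (P 0 + (i : ℝ) * (Δ / (2 * r))) - 2 * (J i : ℝ)| ≤ ε := by
    intro i
    rw [hA, hJ]; exact hj _
  have hΔr : Δ / (2 * r) ≤ 1 / r := by
    rw [div_le_div_iff₀ (by positivity) hr0]; nlinarith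
  have hΔr0 : 0 ≤ Δ / (2 * r) := by positivity
  have hstep : ∀ i, F (A 0) = F (A i) := by
    intro i
    induction i with
    | zero => rfl
    | succ i ih =>
      rw [ih]
      have p1 := hP i
      have p2 := hP (i + 1)
      rw [abs_le] at p1 p2
      push_cast at p2
      apply hgo _ _ (hAL i) (hAL (i + 1)) (2 * (J (i + 1) - J i))
      rw [abs_le]; push_cast
      constructor <;> linarith
  have hfirst : F 0 = F (A 0) := by
    have p1 := hP 0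
    rw [abs_le] at p1
    push_cast at p1
    apply hgo _ _ (by omega) (hAL 0) (2 * J 0)
    have : 0 < 1 / (r : ℝ) := by positivity
    rw [abs_le]; push_cast
    constructor <;> linarith
  have hlast : F (A (2 * r)) = F 1 := by
    have p1 := hP (2 * r)
    have e1 : ((2 * r : ℕ) : ℝ) * (Δ / (2 * r)) = Δ := by push_cast; field_simp
    rw [e1, abs_le, hΔ] at p1
    apply hgo _ _ (hAL _) (by omega) (-(2 * J (2 * r)) + 2 * m)
    have : 0 < 1 / (r : ℝ) := by positivity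
    rw [abs_le]; push_cast
    constructor <;> linarith
  rw [hfirst, hstep (2 * r), hlast]

end Comb

end Pool.Agent.SqrtOne
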