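import Mathlib
import Pool.Agent.SqrtOne.Generic
import Pool.Agent.SqrtOne.Weyl
import Pool.Agent.SqrtOne.Count

set_option autoImplicit false

/-!
# The contradiction
-/

namespace Pool.Agent.SqrtOne

open Real Pool.Agent.SqrtParity

theorem generic_step {f : ℕ → ℤ} {n g : ℝ} {e : ℤ} (h : Hyp f n g e) (hng : 64 / g ≤ √n)
    {J1 : ℕ} {J2 : ℝ} {κ0 κ1 : ℤ} (hκ : κ0 = 1 ∨ κ0 = -1)
    (hpar : ∀ j : ℕ, J1 ≤ j → (j : ℝ) ≤ J2 →
      K f n g (mref n) * K f n g (mref n + j) = if Even j then κ0 else κ1)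
    {k L : ℕ} (hk : 1 ≤ k) (hL : 2 ≤ L)
    (hk1 : ((k : ℝ) + L) * (J1 + 1) ≤ √n) (hk2 : (k : ℝ) + L ≤ g * √n / 48)
    (hj : 3 * L * √n / k + n * (L : ℝ) ^ 2 / (k : ℝ) ^ 2 + 1 ≤ J2)
    (herr : 2 * (L : ℝ) / k + 3 / 2 * (L : ℝ) ^ 2 * √n / (k : ℝ) ^ 2 ≤ g / 16)
    (hD : 2 * n * (L : ℝ) ^ 3 / (k : ℝ) ^ 3 ≤ g / 8)
    {ε : ℝ} {r : ℕ} (hr : 1 ≤ r) (h1 : 1 / (r : ℝ) + 2 * ε ≤ g / 8) (h2 : 2 * ε < 1 / (r + 1))
    (hdense : ∀ φ : ℝ, ∃ a < L, ∃ j : ℤ,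
      |2 * n / k * a - n / (k : ℝ) ^ 2 * (a : ℝ) ^ 2 - φ - 2 * j| ≤ ε) :
    f k = f (k + 1) := by
  have hn := h.hn
  have hg0 := h.hg0
  have hn0 : 0 < n := by linarith
  have hk0 : (0 : ℝ) < k := by exact_mod_cast hk
  have hs0 : 0 < √n := Real.sqrt_pos.2 hn0
  have main := generic_comb (F := fun a => f (k + a))
    (P := fun a => 2 * n / k * a - n / (k : ℝ) ^ 2 * (a : ℝ) ^ 2) (L := L) (τ := g / 8) (ε := ε)
    (κ0 := κ0) (κ1 := κ1) hL (fun a _ => h.cm.sq (by omega)) hκ (by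
      intro a b hab hb N hN
      obtain ⟨l, rfl⟩ := Nat.exists_eq_add_of_le hab.le
      have hl : 1 ≤ l := by omega
      have hap := D_approx (n := n) hn0 hk (L := L) (a := a) (l := l) hb.le
      have hka0 : (0 : ℝ) < ((k + a : ℕ) : ℝ) := by exact_mod_cast (by omega)
      have hkka : (k : ℝ) ≤ ((k + a : ℕ) : ℝ) := by exact_mod_cast (by omega)
      have haL : ((k + a : ℕ) : ℝ) ≤ (k : ℝ) + L := by exact_mod_cast (by omega)
      have hlL : (l : ℝ) ≤ L := by exact_mod_cast (by omega)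
      have hJ : (0 : ℝ) ≤ (J1 : ℝ) + 1 := by positivity
      rw [← add_assoc]
      apply edge h hng hpar (by omega) hl
      · rw [abs_le] at hap hN ⊢
        constructor <;> linarith
      · refine le_trans ?_ hk1
        gcongr
      · linarith
      · refine le_trans ?_ hj
        gcongr
      · refine le_trans ?_ herr
        gcongr) hdense hr h1 h2
  simpa using main

theorem core {g δ : ℝ} (hg0 : 0 < g) (hg1 : g ≤ 1 / 4) (hδ : 0 < δ) : ∃ V0 : ℝ,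
    ∀ (n v w : ℝ) (f : ℕ → ℤ) (e : ℤ) (p : ℕ), Hyp f n g e → 0 < w → w ^ 6 = n → V0 ≤ v →
      v ^ 8 ≤ w → (∀ X : ℕ, 1 ≤ X → (X : ℝ) ≤ w ^ 3 → (X : ℝ) / v ≤ (X : ℝ) ^ (1 - δ)) →
      1 ≤ p → f p = -1 → (p : ℝ) ≤ w / v ^ 4 → False := by
  obtain ⟨W, X0, hW1, hsc⟩ := sign_changes hδ
  obtain ⟨r, hr⟩ : ∃ r : ℕ, r = ⌈16 / g⌉₊ := ⟨_, rfl⟩
  have hr16 : 16 / g ≤ r := by rw [hr]; exact Nat.le_ceil _
  have hrpos : (0 : ℝ) < r := lt_of_lt_of_le (by positivity) hr16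
  have hr1 : 1 ≤ r := by exact_mod_cast hrpos
  obtain ⟨ε, hε⟩ : ∃ ε : ℝ, ε = 1 / (4 * (r + 1)) := ⟨_, rfl⟩
  have hε0 : 0 < ε := by rw [hε]; positivity
  have hinvr : 1 / (r : ℝ) ≤ g / 16 := by
    rw [div_le_iff₀ hrpos]
    rw [div_le_iff₀ hg0] at hr16
    linarith
  have hε1 : 2 * ε < 1 / ((r : ℝ) + 1) := by
    have e1 : 2 * ε = 1 / ((r : ℝ) + 1) / 2 := by rw [hε]; field_simp; norm_num
    have e2 : 0 < 1 / ((r : ℝ) + 1) := by positivity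
    linarith
  have hε2 : 1 / (r : ℝ) + 2 * ε ≤ g / 8 := by
    have e2 : 1 / ((r : ℝ) + 1) ≤ 1 / r := by
      apply one_div_le_one_div_of_le hrpos; linarith
    linarith
  obtain ⟨Q, C, hQ1, hC0, hden⟩ := dense hε0
  obtain ⟨J1, hJ1⟩ : ∃ J1 : ℕ, J1 = ⌈10 ^ 10 / g ^ 2⌉₊ := ⟨_, rfl⟩
  have hJ1' : 10 ^ 10 ≤ g ^ 2 * (J1 : ℝ) := by
    have := Nat.le_ceil (10 ^ 10 / g ^ 2)
    rw [← hJ1, div_le_iff₀ (by positivity)] at this
    linarith
  have hWr : (1 : ℝ) ≤ W := by exact_mod_cast hW1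
  have hQr : (1 : ℝ) ≤ Q := by exact_mod_cast hQ1
  obtain ⟨V0, hV0⟩ : ∃ V0 : ℝ, V0 = ((W : ℝ) + 1) * (J1 + 1) + ((W : ℝ) + 1) * (48 / g)
    + 160 * W ^ 2 / g + 128 * W ^ 3 / g + 64 / g + 4 * (C + 2) + 2 * X0
    + 12 * Q ^ 2 * W ^ 2 * (2 * C * W ^ 3 + 1) + 4 * 10 ^ 8 * 1331 * W ^ 6 / g ^ 4 + 2 := ⟨_, rfl⟩
  refine ⟨V0, ?_⟩
  intro n v w f e p h hw0 hwn hv hvw hpow hp1 hfp hp
  have p1 : 0 ≤ ((W : ℝ) + 1) * (J1 + 1) := by positivity
  have p2 : 0 ≤ ((W : ℝ) + 1) * (48 / g) := by positivity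
  have p3 : 0 ≤ 160 * (W : ℝ) ^ 2 / g := by positivity
  have p4 : 0 ≤ 128 * (W : ℝ) ^ 3 / g := by positivity
  have p5 : 0 ≤ 64 / g := by positivity
  have p6 : 0 ≤ 4 * (C + 2) := by positivity
  have p7 : (0 : ℝ) ≤ 2 * X0 := by positivity
  have p8 : 0 ≤ 12 * (Q : ℝ) ^ 2 * W ^ 2 * (2 * C * W ^ 3 + 1) := by positivity
  have p9 : 0 ≤ 4 * 10 ^ 8 * 1331 * (W : ℝ) ^ 6 / g ^ 4 := by positivity
  have q1 : ((W : ℝ) + 1) * (J1 + 1) ≤ v := by linarith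
  have q2 : ((W : ℝ) + 1) * (48 / g) ≤ v := by linarith
  have q3 : 160 * (W : ℝ) ^ 2 / g ≤ v := by linarith
  have q4 : 128 * (W : ℝ) ^ 3 / g ≤ v := by linarith
  have q5 : 64 / g ≤ v := by linarith
  have q6 : 4 * (C + 2) ≤ v := by linarith
  have q7 : 2 * (X0 : ℝ) ≤ v := by linarith
  have q8 : 12 * (Q : ℝ) ^ 2 * W ^ 2 * (2 * C * W ^ 3 + 1) < v := by linarith
  have q9 : 4 * 10 ^ 8 * 1331 * (W : ℝ) ^ 6 / g ^ 4 ≤ v := by linarith
  have hv2 : 2 ≤ v := by linarith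
  clear hv hV0 p1 p2 p3 p4 p5 p6 p7 p8 p9
  have hv1 : 1 ≤ v := by linarith
  have hv0 : 0 < v := by linarith
  have hn0 : 0 < n := by rw [← hwn]; positivity
  have hsn : √n = w ^ 3 := by
    rw [← hwn, show w ^ 6 = (w ^ 3) ^ 2 by ring]
    exact Real.sqrt_sq (by positivity)
  have hvw8 : v ≤ v ^ 8 := by
    calc v = v ^ 1 := (pow_one v).symm
      _ ≤ v ^ 8 := pow_le_pow_right₀ hv1 (by norm_num)
  have hvw1 : v ≤ w := hvw8.trans hvw
  have hw1 : 1 ≤ w := hv1.trans hvw1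
  have hvw3 : v ^ 3 ≤ w := (pow_le_pow_right₀ hv1 (by norm_num)).trans hvw
  have hvw2 : v ^ 2 ≤ w := (pow_le_pow_right₀ hv1 (by norm_num)).trans hvw
  -- sizes
  obtain ⟨X, hX⟩ : ∃ X : ℕ, X = ⌊w ^ 3 / v⌋₊ := ⟨_, rfl⟩
  have hXu : (X : ℝ) ≤ w ^ 3 / v := by rw [hX]; exact Nat.floor_le (by positivity)
  have hwv1 : 1 ≤ w / v := by rw [one_le_div hv0]; exact hvw1
  have hw3v : w ^ 3 / v = w ^ 2 * (w / v) := by field_simp
  have hw2 : w ≤ w ^ 2 := by nlinarith only [hw1]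
  have hXbig : v ≤ w ^ 3 / v := by
    rw [hw3v]
    calc v ≤ w ^ 2 * 1 := by linarith
      _ ≤ _ := by gcongr
  have hXl : w ^ 3 / v / 2 ≤ X := by
    have := Nat.lt_floor_add_one (w ^ 3 / v)
    rw [← hX] at this
    linarith
  obtain ⟨L, hL⟩ : ∃ L : ℕ, L = ⌊w / v ^ 2⌋₊ := ⟨_, rfl⟩
  have hLu : (L : ℝ) ≤ w / v ^ 2 := by rw [hL]; exact Nat.floor_le (by positivity)
  have hLbig : v ≤ w / v ^ 2 := by
    rw [le_div_iff₀ (by positivity)]
    calc v * v ^ 2 = v ^ 3 := by ring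
      _ ≤ w := hvw3
  have hLl : w / v ^ 2 / 2 ≤ L := by
    have := Nat.lt_floor_add_one (w / v ^ 2)
    rw [← hL] at this
    linarith
  have hLC : C + 2 ≤ (L : ℝ) := by linarith
  have hL2 : 2 ≤ L := by
    have : (2 : ℝ) ≤ L := by linarith
    exact_mod_cast this
  have hL0 : (0 : ℝ) < L := by linarith
  have hX0 : X0 ≤ X := by
    have : (X0 : ℝ) ≤ X := by linarith
    exact_mod_cast this
  have hXpos : (0 : ℝ) < X := by linarith
  have hX1 : 1 ≤ X := by exact_mod_cast hXpos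
  have hXw : (X : ℝ) ≤ w ^ 3 := by
    refine hXu.trans ?_
    exact div_le_self (by positivity) hv1
  have hXp := hpow X hX1 hXw
  -- `p ≤ X ^ (1 - δ)`
  have hpX : (p : ℝ) ≤ (X : ℝ) ^ (1 - δ) := by
    refine le_trans ?_ hXp
    rw [le_div_iff₀ hv0]
    calc (p : ℝ) * v ≤ w / v ^ 4 * v := by gcongr
      _ = w / v ^ 3 := by field_simp
      _ ≤ w ^ 3 / v / 2 := by
          rw [div_div, div_le_div_iff₀ (by positivity) (by positivity)]
          have e1 : v * 2 ≤ w ^ 2 * v ^ 3 := by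
            have e2 : v ≤ v ^ 3 := by
              calc v = v ^ 1 := (pow_one v).symm
                _ ≤ v ^ 3 := pow_le_pow_right₀ hv1 (by norm_num)
            have e3 : 2 ≤ w ^ 2 := by linarith
            calc v * 2 ≤ v ^ 3 * w ^ 2 := by gcongr
              _ = _ := by ring
          calc w * (v * 2) ≤ w * (w ^ 2 * v ^ 3) := by gcongr
            _ = _ := by ring
      _ ≤ X := hXl
  have hcard := hsc X hX0 f h.cm p hp1 hfp hpX
  have hlow : w ^ 2 * v ^ 2 / 2 ≤ ((signSet f W X).card : ℝ) := by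
    refine le_trans ?_ hcard
    have hp0 : (0 : ℝ) < p := by exact_mod_cast hp1
    rw [le_div_iff₀ hp0]
    refine le_trans ?_ hXp
    calc w ^ 2 * v ^ 2 / 2 * p ≤ w ^ 2 * v ^ 2 / 2 * (w / v ^ 4) := by gcongr
      _ = w ^ 3 / v / 2 / v := by field_simp
      _ ≤ X / v := by gcongr
  -- constants of the parity lemma
  obtain ⟨y, hy⟩ : ∃ y : ℝ, y = w / v := ⟨_, rfl⟩
  have hy1 : 1 ≤ y := by rw [hy]; exact hwv1
  have hy0 : 0 < y := by linarith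
  have hJ2 : 4 * 10 ^ 8 * (11 * (W : ℝ) ^ 2 * y ^ 2) ^ 3 ≤ g ^ 4 * n := by
    rw [div_le_iff₀ (by positivity)] at q9
    have e1 : v ≤ v ^ 6 := by
      calc v = v ^ 1 := (pow_one v).symm
        _ ≤ v ^ 6 := pow_le_pow_right₀ hv1 (by norm_num)
    calc 4 * 10 ^ 8 * (11 * (W : ℝ) ^ 2 * y ^ 2) ^ 3
        = (4 * 10 ^ 8 * 1331 * (W : ℝ) ^ 6) * y ^ 6 := by ring
      _ ≤ (v * g ^ 4) * y ^ 6 := by gcongr
      _ ≤ (v ^ 6 * g ^ 4) * y ^ 6 := by gcongr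
      _ = g ^ 4 * w ^ 6 := by rw [hy]; field_simp
      _ = _ := by rw [hwn]
  obtain ⟨κ0, κ1, hκ, hpar⟩ := par_exists h hJ1' hJ2
  have hng : 64 / g ≤ √n := by
    rw [hsn]
    refine q5.trans (hvw1.trans ?_)
    calc w = w ^ 1 := (pow_one w).symm
      _ ≤ w ^ 3 := pow_le_pow_right₀ hw1 (by norm_num)
  obtain ⟨η, hη⟩ : ∃ η : ℝ, η = C / L := ⟨_, rfl⟩
  have hη0 : 0 < η := by rw [hη]; positivity
  have hη1 : η ≤ 1 := by rw [hη, div_le_one hL0]; linarith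
  have hηL : C ≤ η * L := by rw [hη]; field_simp; exact le_rfl
  have hin : ∀ s ∈ signSet f W X, 1 ≤ s ∧ (s : ℝ) ≤ W * (w ^ 3 / v) ∧
      w ^ 3 / v / (2 * W) ≤ s ∧ f s ≠ f (s + 1) := by
    intro s hs
    unfold signSet at hs
    rw [Finset.mem_filter, Finset.mem_Icc] at hs
    obtain ⟨⟨a1, a2⟩, a3, a4⟩ := hs
    refine ⟨a1, ?_, ?_, a4⟩
    · have : (s : ℝ) ≤ W * X := by exact_mod_cast a2
      refine this.trans ?_
      gcongr
    · have : (X : ℝ) ≤ W * s := by exact_mod_cast a3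
      rw [div_le_iff₀ (by positivity)]
      linarith
  have hbad : ∀ s ∈ signSet f W X, ∃ q : ℕ, 1 ≤ q ∧ q ≤ Q ∧
      ∃ m : ℤ, |q * (n / (s : ℝ) ^ 2) - m| < η := by
    intro s hs
    obtain ⟨hs1, hsu, hsl, hsf⟩ := hin s hs
    by_contra hcon
    push Not at hcon
    apply hsf
    have hs0 : (0 : ℝ) < s := by exact_mod_cast hs1
    have hden' := hden (2 * n / s) (n / (s : ℝ) ^ 2) η L hη0 hcon hηL
    -- `T = w³ L / s ≤ 2 W y`
    obtain ⟨T, hT⟩ : ∃ T : ℝ, T = w ^ 3 * L / s := ⟨_, rfl⟩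
    have hT0 : 0 ≤ T := by rw [hT]; positivity
    have hTy : T ≤ 2 * W * y := by
      rw [hT, div_le_iff₀ hs0]
      rw [div_le_iff₀ (by positivity)] at hsl
      calc w ^ 3 * L ≤ w ^ 3 * (w / v ^ 2) := by gcongr
        _ = (w ^ 3 / v) * y := by rw [hy]; field_simp
        _ ≤ (s * (2 * W)) * y := by gcongr
        _ = _ := by ring
    have hsL : (s : ℝ) + L ≤ (W + 1) * (w ^ 3 / v) := by
      have e1 : (L : ℝ) ≤ w ^ 3 / v := by
        refine hLu.trans ?_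
        rw [div_le_div_iff₀ (by positivity) hv0]
        have e2 : w ≤ w ^ 3 := by
          calc w = w ^ 1 := (pow_one w).symm
            _ ≤ w ^ 3 := pow_le_pow_right₀ hw1 (by norm_num)
        have e3 : v ≤ v ^ 2 := by nlinarith only [hv1]
        gcongr
      linarith
    apply generic_step (J1 := J1) (J2 := 11 * (W : ℝ) ^ 2 * y ^ 2) (L := L) h hng hκ hpar hs1 hL2
      _ _ _ _ _ hr1 hε2 hε1 hden'
    · rw [hsn]
      calc ((s : ℝ) + L) * (J1 + 1) ≤ ((W + 1) * (w ^ 3 / v)) * (J1 + 1) := by gcongr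
        _ = ((W + 1) * (J1 + 1)) * (w ^ 3 / v) := by ring
        _ ≤ v * (w ^ 3 / v) := by gcongr
        _ = _ := by field_simp
    · rw [hsn, le_div_iff₀ (by norm_num)]
      calc ((s : ℝ) + L) * 48 ≤ ((W + 1) * (w ^ 3 / v)) * 48 := by gcongr
        _ = g * (((W + 1) * (48 / g)) * (w ^ 3 / v)) := by field_simp
        _ ≤ g * (v * (w ^ 3 / v)) := by gcongr
        _ = _ := by field_simp
    · rw [hsn]
      have e1 : 3 * (L : ℝ) * w ^ 3 / s + n * (L : ℝ) ^ 2 / (s : ℝ) ^ 2 + 1 = 3 * T + T ^ 2 + 1 := by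
        rw [hT, ← hwn]; ring
      rw [e1]
      have e2 : T ^ 2 ≤ (2 * W * y) ^ 2 := pow_le_pow_left₀ hT0 hTy 2
      have e3 : (W : ℝ) * y ≤ W ^ 2 * y ^ 2 := by
        have : 1 ≤ (W : ℝ) * y := one_le_mul_of_one_le_of_one_le hWr hy1
        nlinarith only [this]
      have e4 : 1 ≤ (W : ℝ) ^ 2 * y ^ 2 := by
        have : 1 ≤ (W : ℝ) * y := one_le_mul_of_one_le_of_one_le hWr hy1
        nlinarith only [this]
      nlinarith only [e2, e3, e4, hTy]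
    · rw [hsn]
      have e1 : 2 * (L : ℝ) / s + 3 / 2 * (L : ℝ) ^ 2 * w ^ 3 / (s : ℝ) ^ 2
          = (2 * T + 3 / 2 * T ^ 2) / w ^ 3 := by
        rw [hT]; field_simp
      have e2 : T ^ 2 ≤ (2 * W * y) ^ 2 := pow_le_pow_left₀ hT0 hTy 2
      have e3 : (W : ℝ) * y ≤ W ^ 2 * y ^ 2 := by
        have : 1 ≤ (W : ℝ) * y := one_le_mul_of_one_le_of_one_le hWr hy1
        nlinarith only [this]
      rw [e1, div_le_iff₀ (by positivity)]
      have e4 : 10 * ((W : ℝ) ^ 2 * y ^ 2) ≤ g / 16 * w ^ 3 := by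
        rw [div_le_iff₀ hg0] at q3
        have e5 : y ^ 2 * v ≤ w ^ 3 := by
          calc y ^ 2 * v = w ^ 2 * (w / v / w) := by rw [hy]; field_simp
            _ ≤ w ^ 2 * w := by
                gcongr
                rw [div_div, div_le_iff₀ (by positivity)]
                nlinarith only [hv1, hw1, mul_nonneg hv0.le hw0.le, mul_le_mul_of_nonneg_left hv1 (mul_nonneg hw0.le hw0.le)]
            _ = _ := by ring
        calc 10 * ((W : ℝ) ^ 2 * y ^ 2) = (160 * (W : ℝ) ^ 2) * (y ^ 2 / 16) := by ring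
          _ ≤ (v * g) * (y ^ 2 / 16) := by gcongr
          _ = g / 16 * (y ^ 2 * v) := by ring
          _ ≤ _ := by gcongr
      nlinarith only [e2, e3, e4, hTy]
    · have e1 : 2 * n * (L : ℝ) ^ 3 / (s : ℝ) ^ 3 = 2 * T ^ 3 / w ^ 3 := by
        rw [hT, ← hwn]; field_simp
      have e2 : T ^ 3 ≤ (2 * W * y) ^ 3 := pow_le_pow_left₀ hT0 hTy 3
      rw [e1, div_le_iff₀ (by positivity)]
      rw [div_le_iff₀ hg0] at q4
      calc 2 * T ^ 3 ≤ 2 * (2 * W * y) ^ 3 := by gcongr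
        _ = (128 * (W : ℝ) ^ 3) * (y ^ 3 / 8) := by ring
        _ ≤ (v * g) * (y ^ 3 / 8) := by gcongr
        _ = g / 8 * (v * y ^ 3) := by ring
        _ ≤ g / 8 * w ^ 3 := by
            gcongr
            calc v * y ^ 3 = w ^ 3 / v ^ 2 := by rw [hy]; field_simp
              _ ≤ w ^ 3 := div_le_self (by positivity) (by nlinarith only [hv1])
  have hcount := count_all (n := n) (K1 := w ^ 3 / v / (2 * W)) (K2 := W * (w ^ 3 / v)) hn0
    (by positivity) (by positivity) hη0 hη1 (fun s hs => ⟨(hin s hs).2.2.1, (hin s hs).2.1⟩) hbad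
  have hup : ((signSet f W X).card : ℝ)
      ≤ 6 * (Q : ℝ) ^ 2 * W ^ 2 * (2 * C * W ^ 3 + 1) * (w ^ 2 * v) := by
    refine hcount.trans ?_
    have e1 : η * (W * (w ^ 3 / v)) ^ 3 / n + 1 ≤ (2 * C * W ^ 3 + 1) * (w ^ 2 / v) := by
      have e2 : η ≤ 2 * C * v ^ 2 / w := by
        rw [hη, div_le_div_iff₀ hL0 hw0]
        rw [div_div, div_le_iff₀ (by positivity)] at hLl
        calc C * w ≤ C * (L * (v ^ 2 * 2)) := by gcongr
          _ = _ := by ring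
      have e3 : 1 ≤ w ^ 2 / v := by
        rw [one_le_div hv0]; linarith
      calc η * (W * (w ^ 3 / v)) ^ 3 / n + 1
          ≤ (2 * C * v ^ 2 / w) * (W * (w ^ 3 / v)) ^ 3 / n + w ^ 2 / v := by gcongr
        _ = _ := by rw [← hwn]; field_simp
    have e4 : Q * n / (w ^ 3 / v / (2 * W)) ^ 2 + 2 ≤ 6 * Q * W ^ 2 * v ^ 2 := by
      have e5 : Q * n / (w ^ 3 / v / (2 * W)) ^ 2 = 4 * Q * W ^ 2 * v ^ 2 := by
        rw [← hwn]; field_simp; norm_num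
      have e6 : 1 ≤ (Q : ℝ) * W ^ 2 * v ^ 2 := by
        have : 1 ≤ (W : ℝ) ^ 2 := one_le_pow₀ hWr
        have : 1 ≤ v ^ 2 := one_le_pow₀ hv1
        apply one_le_mul_of_one_le_of_one_le _ this
        apply one_le_mul_of_one_le_of_one_le hQr
        assumption
      rw [e5]; linarith
    calc (Q : ℝ) * ((η * (W * (w ^ 3 / v)) ^ 3 / n + 1) * (Q * n / (w ^ 3 / v / (2 * W)) ^ 2 + 2))
        ≤ Q * (((2 * C * W ^ 3 + 1) * (w ^ 2 / v)) * (6 * Q * W ^ 2 * v ^ 2)) := by gcongr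
      _ = _ := by field_simp
  have hfin : w ^ 2 * v ^ 2 / 2 ≤ 6 * (Q : ℝ) ^ 2 * W ^ 2 * (2 * C * W ^ 3 + 1) * (w ^ 2 * v) :=
    hlow.trans hup
  have hfin2 : (w ^ 2 * v) * v ≤ (w ^ 2 * v) * (12 * (Q : ℝ) ^ 2 * W ^ 2 * (2 * C * W ^ 3 + 1)) := by
    linarith
  have hfin3 := le_of_mul_le_mul_left hfin2 (by positivity)
  linarith

end Pool.Agent.SqrtOne
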